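import Pool.Agent.Work.MP_a2800b_co.Intact

/-!
# The graph has no embedding on the surface of genus 3
-/

namespace ErEven

open Equiv

theorem card_Dt : Fintype.card Dt = 732 := by decide +kernel

theorem crossingFree_eulerChar (𝒟 : Drawing G) (hC : IsEmpty 𝒟.C) : 𝒟.eulerChar ≤ -5 := by
  have := 𝒟.finD
  -- the vertex at which a dart starts
  have hv : ∀ d, ∃ u, 𝒟.src d = Sum.inl u := by
    intro d
    rcases h : 𝒟.src d with u | c
    · exact ⟨u, rfl⟩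
    · exact (hC.false c).elim
  choose v hv using hv
  have hne : ∀ d, v d ≠ v (𝒟.rev d) := by
    intro d hd
    have h1 : v d ∈ 𝒟.edge d := 𝒟.vertex_mem d _ (hv d)
    obtain ⟨x, -, hx⟩ := 𝒟.vertex_unique (v d) (𝒟.edge d) (𝒟.edge_mem d) h1
    have h2 := hx d ⟨hv d, rfl⟩
    have h3 := hx (𝒟.rev d) ⟨by rw [hv, hd], 𝒟.edge_rev d⟩
    exact 𝒟.rev_ne d (h3.trans h2.symm)
  have hedge : ∀ d, 𝒟.edge d = s(v d, v (𝒟.rev d)) := by
    intro d
    refine (Sym2.mem_and_mem_iff (hne d)).1 ⟨𝒟.vertex_mem d _ (hv d), ?_⟩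
    rw [← 𝒟.edge_rev d]
    exact 𝒟.vertex_mem _ _ (hv _)
  have hadj : ∀ d, ∃ x : Dt, x.org = v d ∧ x.rv.org = v (𝒟.rev d) := by
    intro d
    have := 𝒟.edge_mem d
    rw [hedge d] at this
    exact this
  choose Φ hΦ1 hΦ2 using hadj
  have hinj : Function.Injective Φ := by
    intro d d' hh
    have h1 : v d = v d' := Fin.ext (by rw [← hΦ1, ← hΦ1, hh])
    have h2 : v (𝒟.rev d) = v (𝒟.rev d') := Fin.ext (by rw [← hΦ2, ← hΦ2, hh])
    obtain ⟨x, -, hx⟩ := 𝒟.vertex_unique (v d) (𝒟.edge d) (𝒟.edge_mem d)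
      (𝒟.vertex_mem d _ (hv d))
    have h3 := hx d ⟨hv d, rfl⟩
    have h4 := hx d' ⟨by rw [hv, h1], by rw [hedge, hedge, h1, h2]⟩
    rw [h3, h4]
  have hsurj : Function.Surjective Φ := by
    intro x
    have ha : G.Adj ⟨x.org, x.org_lt⟩ ⟨x.rv.org, x.rv.org_lt⟩ := ⟨x, rfl, rfl⟩
    obtain ⟨d, ⟨hd1, hd2⟩, -⟩ := 𝒟.vertex_unique ⟨x.org, x.org_lt⟩
      s(⟨x.org, x.org_lt⟩, ⟨x.rv.org, x.rv.org_lt⟩) ha (Sym2.mem_mk_left _ _)
    rw [hv, Sum.inl.injEq] at hd1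
    refine ⟨d, Dt.ext_org (by rw [hΦ1, hd1]) ?_⟩
    rw [hΦ2]
    rw [hedge, hd1] at hd2
    have := Sym2.congr_right.1 hd2
    rw [this]
  have hrev : ∀ d, Φ (𝒟.rev d) = (Φ d).rv := by
    intro d
    refine Dt.ext_org ?_ ?_
    · rw [hΦ1, hΦ2]
    · rw [hΦ2, 𝒟.rev_rev, Dt.rv_rv, hΦ1]
  let e : 𝒟.D ≃ Dt := Equiv.ofBijective Φ ⟨hinj, hsurj⟩
  have he : ∀ d, e d = Φ d := fun _ => rfl
  let σ : Perm Dt := (e.symm.trans 𝒟.next).trans e
  have hσe : ∀ d, e (𝒟.next d) = σ (e d) := by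
    intro d
    show e (𝒟.next d) = e (𝒟.next (e.symm (e d)))
    rw [Equiv.symm_apply_apply]
  have hrot : IsRot σ := by
    intro x y
    obtain ⟨d, rfl⟩ := e.surjective x
    obtain ⟨d', rfl⟩ := e.surjective y
    rw [← sameCycle_iff_of_semiconj e hσe, ← 𝒟.src_eq_iff, hv, hv, Sum.inl.injEq, he, he, hΦ1,
      hΦ1, Fin.ext_iff]
  have hF : numCycles 𝒟.face ≤ 172 := by
    have h1 : numCycles 𝒟.face = numCycles (fc σ) := by
      refine numCycles_semiconj e ?_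
      intro d
      rw [fc_apply]
      show e (𝒟.next (𝒟.rev d)) = _
      rw [hσe, he (𝒟.rev d), hrev, ← he]
    rw [h1]
    exact faces_le hrot
  have hE : 2 * numCycles 𝒟.rev = 732 := by
    rw [two_mul_numCycles 𝒟.rev 𝒟.rev_rev 𝒟.rev_ne, Nat.card_congr e, Nat.card_eq_fintype_card,
      card_Dt]
  have hV : numCycles 𝒟.next = 189 := by
    have h1 := numCycles_eq_card (τ := 𝒟.next) v (by
      intro u
      obtain ⟨d, hd⟩ := 𝒟.src_surjective (Sum.inl u)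
      rw [hv, Sum.inl.injEq] at hd
      exact ⟨d, hd⟩) (by
      intro x y
      rw [← 𝒟.src_eq_iff, hv, hv, Sum.inl.injEq])
    rw [h1, Nat.card_eq_fintype_card, Fintype.card_fin]
  unfold Drawing.eulerChar
  omega

end ErEven
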