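import Pool.Agent.Work.MP_a2800b_co.Data

/-!
# Checking the tables
-/

namespace ErEven

open Equiv

theorem all_of {n : ℕ} {P : ℕ → Prop} [DecidablePred P]
    (h : allB (fun i => decide (P i)) n = true) : ∀ i < n, P i :=
  fun i hi => of_decide_eq_true (allB_spec h i hi)

/-- The vertex with a given number. -/
def dec (a : ℕ) : Fin 189 := if h : a < 189 then ⟨a, h⟩ else 0

theorem dec_val {a : ℕ} (h : a < 189) : (dec a).val = a := by
  unfold dec
  rw [dif_pos h]

/-- The dart of the graph with a given number. -/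
def decD (n : ℕ) : Dt :=
  if n < 696 then Dt.h ⟨n / 4 % 6, Nat.mod_lt _ (by norm_num)⟩
    ⟨n / 24 % 29, Nat.mod_lt _ (by norm_num)⟩ ⟨n % 4, Nat.mod_lt _ (by norm_num)⟩
  else if n < 708 then Dt.O (decide (702 ≤ n)) ⟨(n - 696) % 6, Nat.mod_lt _ (by norm_num)⟩
  else if n < 720 then Dt.A (decide (714 ≤ n)) ⟨(n - 708) % 6, Nat.mod_lt _ (by norm_num)⟩
  else Dt.B (decide (726 ≤ n)) ⟨(n - 720) % 6, Nat.mod_lt _ (by norm_num)⟩

/-- The number of a dart of the graph. -/
def codeD : Dt → ℕ
  | .h c j i => 4 * (6 * j.val + c.val) + i.val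
  | .O s c => 696 + (if s then 6 else 0) + c.val
  | .A s c => 708 + (if s then 6 else 0) + c.val
  | .B s c => 720 + (if s then 6 else 0) + c.val

theorem codeD_spec : ∀ x : Dt, codeD x < 732 ∧ decD (codeD x) = x := by
  decide +kernel

/-- The test for `straight`. -/
def strB (T : Tab) : ℕ → ℕ → Bool
  | 0, _ => false
  | n + 1, d => if T.sr (T.rv d) < T.nV then true else strB T n (T.nx (T.nx (T.rv d)))

theorem strB_spec (T : Tab) : ∀ n d, strB T n d = true →
    ∃ n, T.sr (T.rv ((fun x => T.nx (T.nx (T.rv x)))^[n] d)) < T.nV := by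
  intro n
  induction n with
  | zero => intro d h; exact absurd h (by simp [strB])
  | succ n ih =>
    intro d h
    unfold strB at h
    split_ifs at h with h1
    · exact ⟨0, h1⟩
    · obtain ⟨m, hm⟩ := ih _ h
      exact ⟨m + 1, hm⟩

theorem chk_nx : allB (fun d => decide (tab.nx d < 816 ∧ tab.pv d < 816 ∧ tab.rv d < 816 ∧
    tab.pv (tab.nx d) = d ∧ tab.nx (tab.pv d) = d ∧ tab.rv (tab.rv d) = d ∧ tab.rv d ≠ d)) 816
    = true := by decide +kernel

theorem chk_sr : allB (fun d => decide (tab.sr d < 210 ∧ tab.sr (tab.nx d) = tab.sr d ∧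
    (d = tab.rp (tab.sr d) ∨ d = tab.nx (tab.rp (tab.sr d)) ∨
    d = tab.nx (tab.nx (tab.rp (tab.sr d))) ∨
    d = tab.nx (tab.nx (tab.nx (tab.rp (tab.sr d))))))) 816 = true := by decide +kernel

theorem chk_rp : allB (fun p => decide (tab.rp p < 816 ∧ tab.sr (tab.rp p) = p)) 210 = true := by
  decide +kernel

theorem chk_et : allB (fun d => decide (tab.et d < 366 ∧ tab.et (tab.rv d) = tab.et d ∧
    (d = 0 ∨ tab.rk (tab.nx d) < tab.rk d ∨ tab.rk (tab.rv d) < tab.rk d))) 816 = true := by
  decide +kernel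

theorem chk_edge : allB (fun k => decide (tab.ea k < tab.eb k ∧ tab.eb k < 189 ∧
    (decD (vd k)).org = tab.ea k ∧ (decD (vd k)).rv.org = tab.eb k)) 366 = true := by
  decide +kernel

theorem chk_mono : allB (fun k => decide (tab.ea k * 256 + tab.eb k <
    tab.ea (k + 1) * 256 + tab.eb (k + 1))) 365 = true := by
  decide +kernel

theorem chk_v : allB (fun d => decide (tab.sr d < 189 →
    (tab.sr d = tab.ea (tab.et d) ∨ tab.sr d = tab.eb (tab.et d)) ∧
    ((tab.et (tab.nx d) = tab.et d → tab.nx d = d) ∧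
    (tab.et (tab.nx (tab.nx d)) = tab.et d → tab.nx (tab.nx d) = d) ∧
    (tab.et (tab.nx (tab.nx (tab.nx d))) = tab.et d → tab.nx (tab.nx (tab.nx d)) = d)) ∧
    (tab.nx d = d ∨ tab.nx (tab.nx d) = d ∨ tab.nx (tab.nx (tab.nx d)) = d ∨
      tab.nx (tab.nx (tab.nx (tab.nx d))) = d))) 816 = true := by
  decide +kernel

theorem chk_x : allB (fun d => decide (189 ≤ tab.sr d →
    tab.nx (tab.nx (tab.nx (tab.nx d))) = d ∧ tab.nx (tab.nx d) ≠ d ∧
      tab.et (tab.nx (tab.nx d)) = tab.et d ∧ tab.et (tab.nx d) ≠ tab.et d)) 816 = true := by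
  decide +kernel

theorem chk_str : allB (fun d => strB tab 8 d) 816 = true := by
  decide +kernel

theorem chk_f : allB (fun d => decide (tab.fid d < 194 ∧ tab.fid (tab.nx (tab.rv d)) = tab.fid d ∧
    (d = tab.frep (tab.fid d) ∨ tab.fpos (tab.rv (tab.pv d)) < tab.fpos d))) 816 = true := by
  decide +kernel

theorem chk_frep : allB (fun f => decide (tab.frep f < 816 ∧ tab.fid (tab.frep f) = f)) 194
    = true := by
  decide +kernel

theorem chk_D : allB (fun n => decide (tab.sr n = (decD n).org ∧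
    ((tab.ea (tab.et n) = (decD n).org ∧ tab.eb (tab.et n) = (decD n).rv.org) ∨
      (tab.ea (tab.et n) = (decD n).rv.org ∧ tab.eb (tab.et n) = (decD n).org)))) 732 = true := by
  decide +kernel

theorem chk_arc : allB (fun x => (Tab.arcL tab 8 (vd (tab.et x))).contains x ||
    (Tab.arcL tab 8 (vd (tab.et x))).contains (tab.rv x)) 816 = true := by
  decide +kernel

theorem chk_pair : allB (fun d => decide (tab.sr d < 189 →
      (tab.nx d = d ∨ Tab.pairOK tab vd (cert d (tab.nx d)) (tab.et d) (tab.et (tab.nx d)) = true) ∧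
      (tab.nx (tab.nx d) = d ∨
        Tab.pairOK tab vd (cert d (tab.nx (tab.nx d))) (tab.et d) (tab.et (tab.nx (tab.nx d)))
          = true) ∧
      (tab.nx (tab.nx (tab.nx d)) = d ∨ Tab.pairOK tab vd (cert d (tab.nx (tab.nx (tab.nx d))))
        (tab.et d) (tab.et (tab.nx (tab.nx (tab.nx d)))) = true))) 816 = true := by
  decide +kernel

theorem chk_even : ∀ c0 : Fin 21, tab.Disj (tab.c1 c0) (tab.c2 c0) →
      Even (Finset.univ.filter fun c : Fin 21 => tab.SameX c c0).card := by
  decide +kernel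

theorem mono_aux : ∀ l < 366, ∀ k < l, tab.ea k * 256 + tab.eb k < tab.ea l * 256 + tab.eb l := by
  have h := all_of chk_mono
  intro l
  induction l with
  | zero => intro _ k hk; omega
  | succ l ih =>
    intro hl k hk
    rcases Nat.lt_succ_iff_lt_or_eq.1 hk with h1 | rfl
    · exact (ih (by omega) k h1).trans (h l (by omega))
    · exact h k (by omega)

theorem tab_valid : tab.Valid G dec where
  nx_lt d hd := (all_of chk_nx d hd).1
  pv_lt d hd := (all_of chk_nx d hd).2.1
  rv_lt d hd := (all_of chk_nx d hd).2.2.1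
  pv_nx d hd := (all_of chk_nx d hd).2.2.2.1
  nx_pv d hd := (all_of chk_nx d hd).2.2.2.2.1
  rv_rv d hd := (all_of chk_nx d hd).2.2.2.2.2.1
  rv_ne d hd := (all_of chk_nx d hd).2.2.2.2.2.2
  sr_lt d hd := (all_of chk_sr d hd).1
  sr_nx d hd := (all_of chk_sr d hd).2.1
  rp_lt p hp := (all_of chk_rp p hp).1
  sr_rp p hp := (all_of chk_rp p hp).2
  rp_reach d hd := (all_of chk_sr d hd).2.2
  et_lt d hd := (all_of chk_et d hd).1
  et_rv d hd := (all_of chk_et d hd).2.1
  rk_dec d hd := (all_of chk_et d hd).2.2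
  pos := by show 0 < 816; norm_num
  dec_inj a ha b hb hab := by
    have := congrArg Fin.val hab
    rwa [dec_val ha, dec_val hb] at this
  dec_surj v := ⟨v.val, v.2, Fin.ext (dec_val v.2)⟩
  ea_lt k hk := (all_of chk_edge k hk).1.trans (all_of chk_edge k hk).2.1
  eb_lt k hk := (all_of chk_edge k hk).2.1
  adj k hk := by
    obtain ⟨h1, h2, h3, h4⟩ := all_of chk_edge k hk
    refine ⟨decD (vd k), ?_, ?_⟩
    · rw [h3, dec_val (h1.trans h2)]
    · rw [h4, dec_val h2]
  edge_inj k hk l hl hkl := by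
    have e1 := (all_of chk_edge k hk).1
    have e2 := (all_of chk_edge l hl).1
    have e3 : tab.ea k = tab.ea l ∧ tab.eb k = tab.eb l := by
      rcases Sym2.eq_iff.1 hkl with h | h
      · exact h
      · omega
    rcases lt_trichotomy k l with h | h | h
    · have := mono_aux l hl k h
      rw [e3.1, e3.2] at this
      exact absurd this (lt_irrefl _)
    · exact h
    · have := mono_aux k hk l h
      rw [e3.1, e3.2] at this
      exact absurd this (lt_irrefl _)
  vmem d hd hv := (all_of chk_v d hd hv).1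
  vuniq d hd hv := (all_of chk_v d hd hv).2.1
  vfour d hd hv := (all_of chk_v d hd hv).2.2
  vex v w hvw := by
    obtain ⟨x, h1, h2⟩ := hvw
    obtain ⟨h3, h4⟩ := codeD_spec x
    obtain ⟨h5, h6⟩ := all_of chk_D (codeD x) h3
    rw [h4] at h5 h6
    refine ⟨codeD x, h3.trans (by show 732 < 816; norm_num), ?_, ?_, ?_⟩
    · rw [h5, h1]; exact Fin.ext (dec_val v.2)
    · rw [h5, h1]; exact v.2
    · rcases h6 with ⟨h7, h8⟩ | ⟨h7, h8⟩
      · rw [h7, h8, h1, h2]
        have e1 : dec v.val = v := Fin.ext (dec_val v.2)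
        have e2 : dec w.val = w := Fin.ext (dec_val w.2)
        rw [e1, e2]
      · rw [h7, h8, h1, h2]
        have e1 : dec v.val = v := Fin.ext (dec_val v.2)
        have e2 : dec w.val = w := Fin.ext (dec_val w.2)
        rw [e1, e2, Sym2.eq_swap]
  cross d hd hx := all_of chk_x d hd hx
  str d hd := strB_spec tab 8 d (allB_spec chk_str d hd)
  fid_lt d hd := (all_of chk_f d hd).1
  fid_step d hd := (all_of chk_f d hd).2.1
  frep_lt f hf := (all_of chk_frep f hf).1
  fid_frep f hf := (all_of chk_frep f hf).2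
  fpos_step d hd := (all_of chk_f d hd).2.2

theorem tab_arc : ∀ x < tab.N, x ∈ Tab.arcL tab 8 (vd (tab.et x)) ∨
    tab.rv x ∈ Tab.arcL tab 8 (vd (tab.et x)) := by
  intro x hx
  have h := allB_spec chk_arc x hx
  rw [Bool.or_eq_true] at h
  rcases h with h | h
  · exact Or.inl (List.contains_iff_mem.1 h)
  · exact Or.inr (List.contains_iff_mem.1 h)

/-- The drawing. -/
def theDrawing : Drawing G := Tab.drawing tab_valid

theorem theDrawing_even : theDrawing.IndependentlyEven :=
  Tab.independentlyEven tab_valid chk_even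

theorem theDrawing_discs : theDrawing.AdjacentPairsInDiscs :=
  Tab.adjacentPairsInDiscs tab_valid cert tab_arc (fun d hd hv => all_of chk_pair d hd hv)

theorem theDrawing_eulerChar : theDrawing.eulerChar = -4 := by
  have h1 : numCycles theDrawing.face = 194 := Tab.numCycles_face tab_valid
  have h2 : 2 * numCycles theDrawing.rev = 816 := Tab.numCycles_rev tab_valid
  have h3 : numCycles theDrawing.next = 210 := Tab.numCycles_next tab_valid
  unfold Drawing.eulerChar
  omega

end ErEven
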