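import Pool.Agent.Work.MP_a2800b_co.Perms

/-!
# Drawings given by tables
-/

namespace ErEven

open Equiv

/-- The Boolean bounded quantifier, in a form that the kernel evaluates quickly. -/
def allB (p : ℕ → Bool) (n : ℕ) : Bool := Nat.rec true (fun k ih => p k && ih) n

theorem allB_spec {p : ℕ → Bool} {n : ℕ} (h : allB p n = true) : ∀ i < n, p i = true := by
  induction n with
  | zero => intro i hi; omega
  | succ n ih =>
    have h' : (p n && allB p n) = true := h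
    rw [Bool.and_eq_true] at h'
    intro i hi
    rcases Nat.lt_succ_iff_lt_or_eq.1 hi with h1 | rfl
    · exact ih h'.2 i h1
    · exact h'.1

/-- Tables of a drawing. Darts, points, edges and faces are numbered. -/
structure Tab where
  N : ℕ
  nV : ℕ
  nC : ℕ
  nE : ℕ
  nF : ℕ
  nx : ℕ → ℕ
  pv : ℕ → ℕ
  rv : ℕ → ℕ
  sr : ℕ → ℕ
  rp : ℕ → ℕ
  et : ℕ → ℕ
  ea : ℕ → ℕ
  eb : ℕ → ℕ
  rk : ℕ → ℕ
  fid : ℕ → ℕ
  fpos : ℕ → ℕ
  frep : ℕ → ℕ

/-- The conditions on the tables. -/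
structure Tab.Valid (T : Tab) {V : Type} (G : SimpleGraph V) (dec : ℕ → V) : Prop where
  nx_lt : ∀ d < T.N, T.nx d < T.N
  pv_lt : ∀ d < T.N, T.pv d < T.N
  rv_lt : ∀ d < T.N, T.rv d < T.N
  pv_nx : ∀ d < T.N, T.pv (T.nx d) = d
  nx_pv : ∀ d < T.N, T.nx (T.pv d) = d
  rv_rv : ∀ d < T.N, T.rv (T.rv d) = d
  rv_ne : ∀ d < T.N, T.rv d ≠ d
  sr_lt : ∀ d < T.N, T.sr d < T.nV + T.nC
  sr_nx : ∀ d < T.N, T.sr (T.nx d) = T.sr d
  rp_lt : ∀ p < T.nV + T.nC, T.rp p < T.N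
  sr_rp : ∀ p < T.nV + T.nC, T.sr (T.rp p) = p
  rp_reach : ∀ d < T.N, d = T.rp (T.sr d) ∨ d = T.nx (T.rp (T.sr d)) ∨
    d = T.nx (T.nx (T.rp (T.sr d))) ∨ d = T.nx (T.nx (T.nx (T.rp (T.sr d))))
  et_lt : ∀ d < T.N, T.et d < T.nE
  et_rv : ∀ d < T.N, T.et (T.rv d) = T.et d
  rk_dec : ∀ d < T.N, d = 0 ∨ T.rk (T.nx d) < T.rk d ∨ T.rk (T.rv d) < T.rk d
  pos : 0 < T.N
  dec_inj : ∀ a < T.nV, ∀ b < T.nV, dec a = dec b → a = b
  dec_surj : ∀ v, ∃ a < T.nV, dec a = v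
  ea_lt : ∀ k < T.nE, T.ea k < T.nV
  eb_lt : ∀ k < T.nE, T.eb k < T.nV
  adj : ∀ k < T.nE, G.Adj (dec (T.ea k)) (dec (T.eb k))
  edge_inj : ∀ k < T.nE, ∀ l < T.nE, s(T.ea k, T.eb k) = s(T.ea l, T.eb l) → k = l
  vmem : ∀ d < T.N, T.sr d < T.nV → T.sr d = T.ea (T.et d) ∨ T.sr d = T.eb (T.et d)
  vuniq : ∀ d < T.N, T.sr d < T.nV →
    (T.et (T.nx d) = T.et d → T.nx d = d) ∧
    (T.et (T.nx (T.nx d)) = T.et d → T.nx (T.nx d) = d) ∧
    (T.et (T.nx (T.nx (T.nx d))) = T.et d → T.nx (T.nx (T.nx d)) = d)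
  vfour : ∀ d < T.N, T.sr d < T.nV → T.nx d = d ∨ T.nx (T.nx d) = d ∨ T.nx (T.nx (T.nx d)) = d ∨
    T.nx (T.nx (T.nx (T.nx d))) = d
  vex : ∀ v w, G.Adj v w → ∃ d < T.N, dec (T.sr d) = v ∧ T.sr d < T.nV ∧
    s(dec (T.ea (T.et d)), dec (T.eb (T.et d))) = s(v, w)
  cross : ∀ d < T.N, T.nV ≤ T.sr d →
    T.nx (T.nx (T.nx (T.nx d))) = d ∧ T.nx (T.nx d) ≠ d ∧
      T.et (T.nx (T.nx d)) = T.et d ∧ T.et (T.nx d) ≠ T.et d
  str : ∀ d < T.N, ∃ n, T.sr (T.rv ((fun x => T.nx (T.nx (T.rv x)))^[n] d)) < T.nV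
  fid_lt : ∀ d < T.N, T.fid d < T.nF
  fid_step : ∀ d < T.N, T.fid (T.nx (T.rv d)) = T.fid d
  frep_lt : ∀ f < T.nF, T.frep f < T.N
  fid_frep : ∀ f < T.nF, T.fid (T.frep f) = f
  fpos_step : ∀ d < T.N, d = T.frep (T.fid d) ∨ T.fpos (T.rv (T.pv d)) < T.fpos d

namespace Tab

variable {T : Tab} {V : Type} {G : SimpleGraph V} {dec : ℕ → V} (h : T.Valid G dec)

/-- `next` as a permutation. -/
def nextP (h : T.Valid G dec) : Perm (Fin T.N) where
  toFun d := ⟨T.nx d, h.nx_lt d d.2⟩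
  invFun d := ⟨T.pv d, h.pv_lt d d.2⟩
  left_inv d := Fin.ext (h.pv_nx d d.2)
  right_inv d := Fin.ext (h.nx_pv d d.2)

/-- `rev` as a permutation. -/
def revP (h : T.Valid G dec) : Perm (Fin T.N) where
  toFun d := ⟨T.rv d, h.rv_lt d d.2⟩
  invFun d := ⟨T.rv d, h.rv_lt d d.2⟩
  left_inv d := Fin.ext (h.rv_rv d d.2)
  right_inv d := Fin.ext (h.rv_rv d d.2)

/-- The starting point. -/
def srcF (h : T.Valid G dec) (d : Fin T.N) : V ⊕ Fin T.nC :=
  if hd : T.sr d < T.nV then Sum.inl (dec (T.sr d)) else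
    Sum.inr ⟨T.sr d - T.nV, by have := h.sr_lt d d.2; omega⟩

theorem srcF_eq_iff (d d' : Fin T.N) : srcF h d = srcF h d' ↔ T.sr d = T.sr d' := by
  unfold srcF
  constructor
  · intro hh
    split_ifs at hh with h1 h2 h2
    · exact h.dec_inj _ h1 _ h2 (Sum.inl.inj hh)
    · have := Fin.val_eq_of_eq (Sum.inr.inj hh)
      simp only at this
      omega
  · intro hh
    simp only [hh]

theorem srcF_inl (d : Fin T.N) (v : V) : srcF h d = Sum.inl v ↔ T.sr d < T.nV ∧ dec (T.sr d) = v := by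
  unfold srcF
  split_ifs with h1
  · simp [h1]
  · simp [h1]

theorem srcF_inr (d : Fin T.N) (c : Fin T.nC) :
    srcF h d = Sum.inr c ↔ T.nV ≤ T.sr d ∧ T.sr d = T.nV + c := by
  unfold srcF
  split_ifs with h1
  · simp only [false_iff, reduceCtorEq]; omega
  · rw [Sum.inr.injEq, Fin.ext_iff]
    simp only
    omega

/-- The edge of a dart. -/
def edgeF (T : Tab) (dec : ℕ → V) (d : Fin T.N) : Sym2 V :=
  s(dec (T.ea (T.et d)), dec (T.eb (T.et d)))

include h in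
theorem edge_inj' {k l : ℕ} (hk : k < T.nE) (hl : l < T.nE)
    (hkl : s(dec (T.ea k), dec (T.eb k)) = s(dec (T.ea l), dec (T.eb l))) : k = l := by
  apply h.edge_inj k hk l hl
  rw [Sym2.eq_iff] at hkl ⊢
  rcases hkl with ⟨h1, h2⟩ | ⟨h1, h2⟩
  · exact Or.inl ⟨h.dec_inj _ (h.ea_lt k hk) _ (h.ea_lt l hl) h1,
      h.dec_inj _ (h.eb_lt k hk) _ (h.eb_lt l hl) h2⟩
  · exact Or.inr ⟨h.dec_inj _ (h.ea_lt k hk) _ (h.eb_lt l hl) h1,
      h.dec_inj _ (h.eb_lt k hk) _ (h.ea_lt l hl) h2⟩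

include h in
theorem edgeF_eq_iff (d d' : Fin T.N) : edgeF T dec d = edgeF T dec d' ↔ T.et d = T.et d' := by
  unfold edgeF
  constructor
  · exact fun hh => edge_inj' h (h.et_lt d d.2) (h.et_lt d' d'.2) hh
  · intro hh
    rw [hh]

theorem sr_sameCycle {d d' : Fin T.N} (hh : (nextP h).SameCycle d d') : T.sr d = T.sr d' := by
  have := sameCycle_of_semiconj (τ := nextP h) (τ' := (1 : Perm ℕ)) (h := fun d => T.sr d)
    (fun x => h.sr_nx x x.2) hh
  simpa using this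

theorem fid_sameCycle {d d' : Fin T.N} (hh : (nextP h * revP h).SameCycle d d') :
    T.fid d = T.fid d' := by
  have := sameCycle_of_semiconj (τ := nextP h * revP h) (τ' := (1 : Perm ℕ))
    (h := fun d => T.fid d) (fun x => h.fid_step x x.2) hh
  simpa using this

theorem sameCycle_rp (d : Fin T.N) :
    (nextP h).SameCycle ⟨T.rp (T.sr d), h.rp_lt _ (h.sr_lt d d.2)⟩ d := by
  rcases h.rp_reach d d.2 with h1 | h1 | h1 | h1
  · exact ⟨0, Fin.ext (by simpa using h1.symm)⟩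
  · exact ⟨1, Fin.ext (by rw [zpow_one]; exact h1.symm)⟩
  · exact ⟨2, Fin.ext (by rw [show (2 : ℤ) = ((2 : ℕ) : ℤ) from rfl, zpow_natCast]; exact h1.symm)⟩
  · exact ⟨3, Fin.ext (by rw [show (3 : ℤ) = ((3 : ℕ) : ℤ) from rfl, zpow_natCast]; exact h1.symm)⟩

theorem sameCycle_of_sr {d d' : Fin T.N} (hh : T.sr d = T.sr d') : (nextP h).SameCycle d d' := by
  have h1 := sameCycle_rp h d
  have h2 := sameCycle_rp h d'
  have h3 : (⟨T.rp (T.sr d), h.rp_lt _ (h.sr_lt d d.2)⟩ : Fin T.N)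
      = ⟨T.rp (T.sr d'), h.rp_lt _ (h.sr_lt d' d'.2)⟩ := Fin.ext (by simp only [hh])
  rw [h3] at h1
  exact h1.symm.trans h2

theorem reach_root (n : ℕ) : ∀ d : Fin T.N, T.rk d = n →
    ∃ g ∈ Subgroup.closure {nextP h, revP h}, g d = ⟨0, h.pos⟩ := by
  induction n using Nat.strong_induction_on with
  | _ n ih =>
    intro d hd
    rcases h.rk_dec d d.2 with h1 | h1 | h1
    · exact ⟨1, Subgroup.one_mem _, Fin.ext (by simpa using h1)⟩
    · obtain ⟨g, hg, hgd⟩ := ih _ (by rw [← hd]; exact h1) (nextP h d) rfl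
      exact ⟨g * nextP h, Subgroup.mul_mem _ hg (Subgroup.subset_closure (by simp)), hgd⟩
    · obtain ⟨g, hg, hgd⟩ := ih _ (by rw [← hd]; exact h1) (revP h d) rfl
      exact ⟨g * revP h, Subgroup.mul_mem _ hg (Subgroup.subset_closure (by simp)), hgd⟩

theorem connectedP (d d' : Fin T.N) :
    ∃ g ∈ Subgroup.closure {nextP h, revP h}, g d = d' := by
  obtain ⟨g, hg, hgd⟩ := reach_root h _ d rfl
  obtain ⟨g', hg', hgd'⟩ := reach_root h _ d' rfl
  exact ⟨g'⁻¹ * g, Subgroup.mul_mem _ (Subgroup.inv_mem _ hg') hg, by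
    rw [Perm.mul_apply, hgd, Perm.inv_eq_iff_eq, hgd']⟩

theorem iter_val (n : ℕ) (d : Fin T.N) :
    (((fun x => nextP h (nextP h (revP h x)))^[n] d : Fin T.N) : ℕ) =
      (fun x => T.nx (T.nx (T.rv x)))^[n] (d : ℕ) := by
  induction n generalizing d with
  | zero => rfl
  | succ n ih => rw [Function.iterate_succ_apply, Function.iterate_succ_apply, ih]; rfl

theorem reach_four {d : Fin T.N} (hd : T.sr d < T.nV) (n : ℕ) :
    ((nextP h ^ n) d : Fin T.N) = d ∨ (nextP h ^ n) d = nextP h d ∨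
      (nextP h ^ n) d = nextP h (nextP h d) ∨ (nextP h ^ n) d = nextP h (nextP h (nextP h d)) := by
  induction n with
  | zero => left; rfl
  | succ n ih =>
    rw [pow_succ', Perm.mul_apply]
    rcases ih with h1 | h1 | h1 | h1 <;> rw [h1]
    · right; left; rfl
    · right; right; left; rfl
    · right; right; right; rfl
    · rcases h.vfour d d.2 hd with h2 | h2 | h2 | h2
      · have h2' : nextP h d = d := Fin.ext h2
        left; rw [h2', h2', h2', h2']
      · have h2' : nextP h (nextP h d) = d := Fin.ext h2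
        left; rw [h2', h2']
      · have h2' : nextP h (nextP h (nextP h d)) = d := Fin.ext h2
        right; left; rw [h2']
      · left; exact Fin.ext h2

include h in
theorem uniqP {d d' : Fin T.N} (hd : T.sr d < T.nV) (hs : T.sr d = T.sr d')
    (he : T.et d = T.et d') : d = d' := by
  have hsc := (sameCycle_of_sr h hs)
  have key := reach_four h hd
  obtain ⟨n, -, hn, -⟩ := first_hit hsc
  obtain ⟨u1, u2, u3⟩ := h.vuniq d d.2 hd
  rcases key n with h1 | h1 | h1 | h1 <;> rw [hn] at h1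
  · exact h1.symm
  · have : T.nx d = d := u1 (by rw [he, h1]; rfl)
    rw [h1]; exact (Fin.ext this).symm
  · have : T.nx (T.nx d) = d := u2 (by rw [he, h1]; rfl)
    rw [h1]; exact (Fin.ext this).symm
  · have : T.nx (T.nx (T.nx d)) = d := u3 (by rw [he, h1]; rfl)
    rw [h1]; exact (Fin.ext this).symm

/-- The drawing given by the tables. -/
def drawing (h : T.Valid G dec) : Drawing G where
  C := Fin T.nC
  D := Fin T.N
  finC := inferInstance
  finD := inferInstance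
  next := nextP h
  rev := revP h
  src := srcF h
  edge := edgeF T dec
  rev_rev d := Fin.ext (h.rv_rv d d.2)
  rev_ne d := fun hh => h.rv_ne d d.2 (Fin.val_eq_of_eq hh)
  edge_rev d := (edgeF_eq_iff h _ _).2 (h.et_rv d d.2)
  edge_mem d := h.adj _ (h.et_lt d d.2)
  src_surjective := by
    rintro (v | c)
    · obtain ⟨a, ha, rfl⟩ := h.dec_surj v
      refine ⟨⟨T.rp a, h.rp_lt a (by omega)⟩, (srcF_inl h _ _).2 ?_⟩
      simp only [h.sr_rp a (by omega)]
      exact ⟨ha, trivial⟩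
    · refine ⟨⟨T.rp (T.nV + c), h.rp_lt _ (by omega)⟩, (srcF_inr h _ _).2 ?_⟩
      simp only [h.sr_rp (T.nV + c) (by omega)]
      exact ⟨by omega, trivial⟩
  src_eq_iff d d' := by
    rw [srcF_eq_iff]
    exact ⟨sameCycle_of_sr h, sr_sameCycle h⟩
  connected := connectedP h
  vertex_mem d v hv := by
    rw [srcF_inl] at hv
    obtain ⟨h1, rfl⟩ := hv
    unfold edgeF
    rw [Sym2.mem_iff]
    rcases h.vmem d d.2 h1 with h2 | h2
    · left; rw [← h2]
    · right; rw [← h2]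
  vertex_unique := by
    intro v e he hv
    obtain ⟨w, rfl⟩ := Sym2.mem_iff_exists.1 hv
    obtain ⟨d, hd, hdv, hlt, hde⟩ := h.vex v w he
    refine ⟨⟨d, hd⟩, ⟨(srcF_inl h _ _).2 ⟨hlt, hdv⟩, hde⟩, ?_⟩
    rintro d' ⟨h1, h2⟩
    rw [srcF_inl] at h1
    refine uniqP h h1.1 ?_ ?_
    · exact h.dec_inj _ h1.1 _ hlt (by rw [h1.2, hdv])
    · exact (edgeF_eq_iff h _ _).1 (h2.trans hde.symm)
  crossing d c hd := by
    rw [srcF_inr] at hd
    obtain ⟨h1, h2, h3, h4⟩ := h.cross d d.2 hd.1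
    refine ⟨Fin.ext h1, fun hh => h2 (Fin.val_eq_of_eq hh), (edgeF_eq_iff h _ _).2 h3, fun hh => h4 ?_⟩
    exact (edgeF_eq_iff h _ _).1 hh
  straight d := by
    obtain ⟨n, hn⟩ := h.str d d.2
    refine ⟨n, dec (T.sr (T.rv ((fun x => T.nx (T.nx (T.rv x)))^[n] d))), ?_⟩
    rw [srcF_inl]
    have hv := iter_val h n d
    show T.sr (T.rv _) < _ ∧ dec (T.sr (T.rv _)) = _
    rw [hv]
    exact ⟨hn, rfl⟩

theorem fid_reach (n : ℕ) : ∀ d : Fin T.N, T.fpos d = n →
    (nextP h * revP h).SameCycle ⟨T.frep (T.fid d), h.frep_lt _ (h.fid_lt d d.2)⟩ d := by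
  induction n using Nat.strong_induction_on with
  | _ n ih =>
    intro d hd
    rcases h.fpos_step d d.2 with h1 | h1
    · exact ⟨0, Fin.ext (by simpa using h1.symm)⟩
    · set x : Fin T.N := revP h ((nextP h)⁻¹ d) with hx
      have hx' : (nextP h * revP h) x = d := by
        rw [hx, Perm.mul_apply]
        have : revP h (revP h ((nextP h)⁻¹ d)) = (nextP h)⁻¹ d :=
          Fin.ext (h.rv_rv _ ((nextP h)⁻¹ d).2)
        rw [this]
        simp
      have hfx : T.fid x = T.fid d := by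
        rw [← hx']
        exact (h.fid_step x x.2).symm
      have hlt : T.fpos x < n := by
        rw [← hd]; exact h1
      have := ih _ hlt x rfl
      have h3 : (⟨T.frep (T.fid x), h.frep_lt _ (h.fid_lt x x.2)⟩ : Fin T.N)
        = ⟨T.frep (T.fid d), h.frep_lt _ (h.fid_lt d d.2)⟩ := Fin.ext (by simp only [hfx])
      rw [h3] at this
      refine this.trans ⟨1, ?_⟩
      rw [zpow_one]
      exact hx'

theorem numCycles_face : numCycles (drawing h).face = T.nF := by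
  have : numCycles (nextP h * revP h) = Nat.card (Fin T.nF) := by
    refine numCycles_eq_card (fun d => ⟨T.fid d, h.fid_lt d d.2⟩) ?_ ?_
    · intro f
      exact ⟨⟨T.frep f, h.frep_lt f f.2⟩, Fin.ext (h.fid_frep f f.2)⟩
    · intro x y
      rw [Fin.ext_iff]
      refine ⟨fun hxy => ?_, fid_sameCycle h⟩
      simp only at hxy
      have h1 := fid_reach h _ x rfl
      have h2 := fid_reach h _ y rfl
      have h3 : (⟨T.frep (T.fid x), h.frep_lt _ (h.fid_lt x x.2)⟩ : Fin T.N)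
        = ⟨T.frep (T.fid y), h.frep_lt _ (h.fid_lt y y.2)⟩ := Fin.ext (by simp only [hxy])
      rw [h3] at h1
      exact h1.symm.trans h2
  rw [Nat.card_eq_fintype_card, Fintype.card_fin] at this
  exact this

theorem numCycles_rev : 2 * numCycles (drawing h).rev = T.N := by
  have := two_mul_numCycles (revP h) (fun d => Fin.ext (h.rv_rv d d.2))
    (fun d hh => h.rv_ne d d.2 (Fin.val_eq_of_eq hh))
  rw [Nat.card_eq_fintype_card, Fintype.card_fin] at this
  exact this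

theorem numCycles_next : numCycles (drawing h).next = T.nV + T.nC := by
  have : numCycles (nextP h) = Nat.card (Fin (T.nV + T.nC)) := by
    refine numCycles_eq_card (fun d => ⟨T.sr d, h.sr_lt d d.2⟩) ?_ ?_
    · intro p
      exact ⟨⟨T.rp p, h.rp_lt p p.2⟩, Fin.ext (h.sr_rp p p.2)⟩
    · intro x y
      rw [Fin.ext_iff]
      exact ⟨sameCycle_of_sr h, sr_sameCycle h⟩
  rw [Nat.card_eq_fintype_card, Fintype.card_fin] at this
  exact this

end Tab

end ErEven
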