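import Pool.Agent.Work.MP_a2800b_co.Code

/-!
# Parities and discs for drawings given by tables
-/

namespace ErEven

open Equiv

namespace Tab

/-- The two edges at a crossing. -/
def c1 (T : Tab) (c : ℕ) : ℕ := T.et (T.rp (T.nV + c))

/-- The two edges at a crossing. -/
def c2 (T : Tab) (c : ℕ) : ℕ := T.et (T.nx (T.rp (T.nV + c)))

/-- Two edges without common endpoint. -/
def Disj (T : Tab) (k l : ℕ) : Prop :=
  T.ea k ≠ T.ea l ∧ T.ea k ≠ T.eb l ∧ T.eb k ≠ T.ea l ∧ T.eb k ≠ T.eb l

instance (T : Tab) (k l : ℕ) : Decidable (T.Disj k l) := by unfold Disj; infer_instance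

/-- Two crossings with the same two edges. -/
def SameX (T : Tab) (c c' : ℕ) : Prop :=
  (T.c1 c = T.c1 c' ∧ T.c2 c = T.c2 c') ∨ (T.c1 c = T.c2 c' ∧ T.c2 c = T.c1 c')

instance (T : Tab) (c c' : ℕ) : Decidable (T.SameX c c') := by unfold SameX; infer_instance

variable {T : Tab} {V : Type} {G : SimpleGraph V} {dec : ℕ → V} (h : T.Valid G dec)

include h in
theorem edge_at_crossing (c : Fin T.nC) (k : ℕ) :
    (∃ d : Fin T.N, srcF h d = Sum.inr c ∧ T.et d = k) ↔ k = T.c1 c ∨ k = T.c2 c := by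
  have hlt : T.nV + c < T.nV + T.nC := by omega
  have hr := h.rp_lt _ hlt
  have hsr := h.sr_rp _ hlt
  constructor
  · rintro ⟨d, hd, rfl⟩
    rw [srcF_inr] at hd
    have h1 := h.rp_reach d d.2
    rw [hd.2] at h1
    have hge : T.nV ≤ T.sr (T.rp (T.nV + c)) := by omega
    have h2 := h.cross _ hr hge
    have h3 := h.nx_lt _ hr
    have h4 := h.cross _ h3 (by rw [h.sr_nx _ hr]; exact hge)
    rcases h1 with h1 | h1 | h1 | h1
    · left; rw [h1]; rfl
    · right; rw [h1]; rfl
    · left; rw [h1, h2.2.2.1]; rfl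
    · right; rw [h1, h4.2.2.1]; rfl
  · rintro (rfl | rfl)
    · exact ⟨⟨_, hr⟩, (srcF_inr h _ _).2 ⟨by simp only; omega, hsr⟩, rfl⟩
    · refine ⟨⟨_, h.nx_lt _ hr⟩, (srcF_inr h _ _).2 ?_, rfl⟩
      simp only [h.sr_nx _ hr]
      exact ⟨by omega, hsr⟩

include h in
theorem exists_index {e : Sym2 V} (he : e ∈ G.edgeSet) :
    ∃ k < T.nE, e = s(dec (T.ea k), dec (T.eb k)) := by
  induction e using Sym2.ind with
  | _ v w =>
    obtain ⟨d, hd, -, -, h1⟩ := h.vex v w he
    exact ⟨T.et d, h.et_lt d hd, h1.symm⟩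

theorem independentlyEven
    (hEv : ∀ c0 : Fin T.nC, T.Disj (T.c1 c0) (T.c2 c0) →
      Even (Finset.univ.filter fun c : Fin T.nC => T.SameX c c0).card) :
    (drawing h).IndependentlyEven := by
  intro e he f hf hdisj
  obtain ⟨k, hk, rfl⟩ := exists_index h he
  obtain ⟨l, hl, rfl⟩ := exists_index h hf
  have hE : ∀ (x : Fin T.N) (m : ℕ), m < T.nE →
      ((drawing h).edge x = s(dec (T.ea m), dec (T.eb m)) ↔ T.et x = m) := by
    intro x m hm
    constructor
    · intro hx
      exact edge_inj' h (h.et_lt x x.2) hm hx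
    · rintro rfl
      rfl
  have hset : (show Set (Fin T.nC) from (drawing h).crossings s(dec (T.ea k), dec (T.eb k))
        s(dec (T.ea l), dec (T.eb l))) =
      {c : Fin T.nC | (k = T.c1 c ∨ k = T.c2 c) ∧ (l = T.c1 c ∨ l = T.c2 c)} := by
    refine Set.ext fun (c : Fin T.nC) => ?_
    rw [Set.mem_ofPred_eq, ← edge_at_crossing h c k, ← edge_at_crossing h c l]
    constructor
    · rintro ⟨⟨d, hd1, hd2⟩, d', hd1', hd2'⟩
      exact ⟨⟨d, hd1, (hE d k hk).1 hd2⟩, d', hd1', (hE d' l hl).1 hd2'⟩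
    · rintro ⟨⟨d, hd1, hd2⟩, d', hd1', hd2'⟩
      exact ⟨⟨d, hd1, (hE d k hk).2 hd2⟩, d', hd1', (hE d' l hl).2 hd2'⟩
  have hkl : k ≠ l := by
    rintro rfl
    exact hdisj (dec (T.ea k)) ⟨Sym2.mem_mk_left _ _, Sym2.mem_mk_left _ _⟩
  have hD : T.Disj k l := by
    refine ⟨fun hh => ?_, fun hh => ?_, fun hh => ?_, fun hh => ?_⟩
    · exact hdisj (dec (T.ea k)) ⟨Sym2.mem_mk_left _ _, by rw [hh]; exact Sym2.mem_mk_left _ _⟩
    · exact hdisj (dec (T.ea k)) ⟨Sym2.mem_mk_left _ _, by rw [hh]; exact Sym2.mem_mk_right _ _⟩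
    · exact hdisj (dec (T.eb k)) ⟨Sym2.mem_mk_right _ _, by rw [hh]; exact Sym2.mem_mk_left _ _⟩
    · exact hdisj (dec (T.eb k)) ⟨Sym2.mem_mk_right _ _, by rw [hh]; exact Sym2.mem_mk_right _ _⟩
  show Even (Set.ncard (show Set (Fin T.nC) from (drawing h).crossings
    s(dec (T.ea k), dec (T.eb k)) s(dec (T.ea l), dec (T.eb l))))
  rw [hset]
  rcases Set.eq_empty_or_nonempty
    {c : Fin T.nC | (k = T.c1 c ∨ k = T.c2 c) ∧ (l = T.c1 c ∨ l = T.c2 c)} with h0 | ⟨c0, h0⟩
  · rw [h0]
    exact ⟨0, Set.ncard_empty _⟩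
  · have h1 : (k = T.c1 c0 ∧ l = T.c2 c0) ∨ (k = T.c2 c0 ∧ l = T.c1 c0) := by
      obtain ⟨ha, hb⟩ := h0
      rcases ha with ha | ha <;> rcases hb with hb | hb
      · exact absurd (ha.trans hb.symm) hkl
      · exact Or.inl ⟨ha, hb⟩
      · exact Or.inr ⟨ha, hb⟩
      · exact absurd (ha.trans hb.symm) hkl
    have h2 : T.Disj (T.c1 c0) (T.c2 c0) := by
      obtain ⟨a1, a2, a3, a4⟩ := hD
      rcases h1 with ⟨rfl, rfl⟩ | ⟨rfl, rfl⟩
      · exact ⟨a1, a2, a3, a4⟩
      · exact ⟨fun hh => a1 hh.symm, fun hh => a3 hh.symm, fun hh => a2 hh.symm,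
          fun hh => a4 hh.symm⟩
    have h3 : {c : Fin T.nC | (k = T.c1 c ∨ k = T.c2 c) ∧ (l = T.c1 c ∨ l = T.c2 c)} =
        ((Finset.univ.filter fun c : Fin T.nC => T.SameX c c0) : Finset (Fin T.nC)) := by
      ext c
      rw [Finset.coe_filter, Set.mem_ofPred_eq, Set.mem_ofPred_eq]
      simp only [Finset.mem_univ, true_and]
      unfold SameX
      rcases h1 with ⟨rfl, rfl⟩ | ⟨rfl, rfl⟩
      · constructor
        · rintro ⟨ha, hb⟩
          rcases ha with ha | ha <;> rcases hb with hb | hb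
          · exact absurd (ha.trans hb.symm) hkl
          · exact Or.inl ⟨ha.symm, hb.symm⟩
          · exact Or.inr ⟨hb.symm, ha.symm⟩
          · exact absurd (ha.trans hb.symm) hkl
        · rintro (⟨ha, hb⟩ | ⟨ha, hb⟩)
          · exact ⟨Or.inl ha.symm, Or.inr hb.symm⟩
          · exact ⟨Or.inr hb.symm, Or.inl ha.symm⟩
      · constructor
        · rintro ⟨ha, hb⟩
          rcases ha with ha | ha <;> rcases hb with hb | hb
          · exact absurd (ha.trans hb.symm) hkl
          · exact Or.inr ⟨ha.symm, hb.symm⟩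
          · exact Or.inl ⟨hb.symm, ha.symm⟩
          · exact absurd (ha.trans hb.symm) hkl
        · rintro (⟨ha, hb⟩ | ⟨ha, hb⟩)
          · exact ⟨Or.inr hb.symm, Or.inl ha.symm⟩
          · exact ⟨Or.inl ha.symm, Or.inr hb.symm⟩
    rw [h3, Set.ncard_coe_finset]
    exact hEv c0 h2

/-- The darts of the arc that starts with `d`. -/
def arcL (T : Tab) : ℕ → ℕ → List ℕ
  | 0, d => [d]
  | n + 1, d => if T.sr (T.rv d) < T.nV then [d] else d :: arcL T n (T.nx (T.nx (T.rv d)))

/-- All darts of the face of `d` after `x` and before `d` are in `E`. -/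
def faceOK (T : Tab) (E : List ℕ) (d : ℕ) : ℕ → ℕ → Bool
  | 0, _ => false
  | n + 1, x => if T.nx (T.rv x) = d then true else
      E.contains (T.nx (T.rv x)) && faceOK T E d n (T.nx (T.rv x))

/-- Run a sequence of expansions. -/
def run (T : Tab) : List ℕ → List ℕ → List ℕ → Option (List ℕ × List ℕ)
  | P, E, [] => some (P, E)
  | P, E, d :: ds =>
    if d < T.N ∧ P.contains (T.sr d) then
      if P.contains (T.sr (T.rv d)) then
        if !(E.contains d) && faceOK T E d 20 d then run T P (d :: T.rv d :: E) ds else none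
      else run T (T.sr (T.rv d) :: P) (d :: T.rv d :: E) ds
    else none

/-- The points with numbers in the list. -/
def pset (h : T.Valid G dec) (P : List ℕ) : Set (V ⊕ Fin T.nC) :=
  {p | ∃ d : Fin T.N, srcF h d = p ∧ T.sr d ∈ P}

/-- The darts with numbers in the list. -/
def dset (T : Tab) (E : List ℕ) : Set (Fin T.N) := {d | d.val ∈ E}

theorem src_mem_pset (P : List ℕ) (d : Fin T.N) : srcF h d ∈ pset h P ↔ T.sr d ∈ P := by
  constructor
  · rintro ⟨d', h1, h2⟩
    rw [srcF_eq_iff] at h1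
    rw [← h1]; exact h2
  · intro h1
    exact ⟨d, rfl, h1⟩

theorem pset_cons (P : List ℕ) (d : Fin T.N) :
    pset h (T.sr d :: P) = insert (srcF h d) (pset h P) := by
  ext p
  constructor
  · rintro ⟨x, hx, hm⟩
    rcases List.mem_cons.1 hm with h1 | h1
    · left; rw [← hx]; exact (srcF_eq_iff h _ _).2 h1
    · right; exact ⟨x, hx, h1⟩
  · rintro (rfl | ⟨x, hx, hm⟩)
    · exact ⟨d, rfl, List.mem_cons_self⟩
    · exact ⟨x, hx, List.mem_cons_of_mem _ hm⟩

theorem dset_cons (E : List ℕ) (d : Fin T.N) :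
    dset T (d.val :: T.rv d.val :: E) = dset T E ∪ {d, revP h d} := by
  ext x
  show (x.val ∈ d.val :: T.rv d.val :: E) ↔ _ ∨ _
  rw [List.mem_cons, List.mem_cons]
  constructor
  · rintro (h1 | h1 | h1)
    · right; left; exact Fin.ext h1
    · right; right; exact Fin.ext h1
    · left; exact h1
  · rintro (h1 | h1 | h1)
    · right; right; exact h1
    · left; rw [h1]
    · right; left; rw [h1]; rfl

theorem faceOK_spec {E : List ℕ} {d : Fin T.N} : ∀ (n : ℕ) (x : Fin T.N),
    faceOK T E d n x = true → ∃ m : ℕ, ((nextP h * revP h) ^ (m + 1)) x = d ∧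
      ∀ i, 1 ≤ i → i ≤ m → ((((nextP h * revP h) ^ i) x : Fin T.N) : ℕ) ∈ E := by
  intro n
  induction n with
  | zero => intro x hx; exact absurd hx (by simp [faceOK])
  | succ n ih =>
    intro x hx
    unfold faceOK at hx
    split_ifs at hx with h1
    · refine ⟨0, ?_, fun i h2 h3 => by omega⟩
      rw [zero_add, pow_one]
      exact Fin.ext h1
    · rw [Bool.and_eq_true] at hx
      obtain ⟨m, hm1, hm2⟩ := ih ((nextP h * revP h) x) hx.2
      refine ⟨m + 1, ?_, ?_⟩
      · rw [pow_succ, Perm.mul_apply]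
        exact hm1
      · intro i hi1 hi2
        rcases Nat.lt_or_ge 1 i with h3 | h3
        · obtain ⟨k, rfl⟩ : ∃ k, i = k + 1 := ⟨i - 1, by omega⟩
          rw [pow_succ, Perm.mul_apply]
          exact hm2 k (by omega) (by omega)
        · have : i = 1 := by omega
          rw [this, pow_one]
          exact List.contains_iff_mem.1 hx.1

theorem faceOK_all {E : List ℕ} {d : Fin T.N} {n : ℕ} (hd : faceOK T E d n d = true) (x : Fin T.N)
    (hx : (nextP h * revP h).SameCycle d x) (hne : x ≠ d) : (x : ℕ) ∈ E := by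
  obtain ⟨m, hm1, hm2⟩ := faceOK_spec h n d hd
  obtain ⟨k, hk1, hk, hmin⟩ := first_hit hx
  have hkm : k ≤ m := by
    by_contra hlt
    rcases Nat.lt_or_ge (m + 1) k with h1 | h1
    · exact (hmin (m + 1) (by omega) h1).2 hm1
    · have : k = m + 1 := by omega
      rw [this, hm1] at hk
      exact hne hk.symm
  rw [← hk]
  exact hm2 k hk1 hkm

theorem run_spec : ∀ (ds P E : List ℕ) (P' E' : List ℕ), run T P E ds = some (P', E') →
    (drawing h).Collapsible (pset h P) (dset T E) →
    (drawing h).Collapsible (pset h P') (dset T E') := by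
  intro ds
  induction ds with
  | nil =>
    intro P E P' E' hr hc
    simp only [run, Option.some.injEq, Prod.mk.injEq] at hr
    rw [← hr.1, ← hr.2]
    exact hc
  | cons d ds ih =>
    intro P E P' E' hr hc
    unfold run at hr
    split_ifs at hr with h1 h2 h3
    · rw [Bool.and_eq_true] at h3
      obtain ⟨h1, h1'⟩ := h1
      refine ih _ _ _ _ hr ?_
      rw [show dset T (d :: T.rv d :: E) = _ from dset_cons h E ⟨d, h1⟩]
      refine Drawing.Collapsible.addFace (𝒟 := drawing h) ⟨d, h1⟩ hc ?_ ?_ ?_ ?_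
      · exact (src_mem_pset h P ⟨d, h1⟩).2 (List.contains_iff_mem.1 h1')
      · exact (src_mem_pset h P ((drawing h).rev ⟨d, h1⟩)).2 (List.contains_iff_mem.1 h2)
      · intro hmem
        have h4 : d ∈ E := hmem
        have h5 := h3.1
        rw [Bool.not_eq_true', ← Bool.not_eq_true] at h5
        exact h5 (List.contains_iff_mem.2 h4)
      · intro x hx hne
        exact faceOK_all h (d := ⟨d, h1⟩) h3.2 x hx hne
    · obtain ⟨h1, h1'⟩ := h1
      refine ih _ _ _ _ hr ?_
      rw [show dset T (d :: T.rv d :: E) = _ from dset_cons h E ⟨d, h1⟩,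
        show pset h (T.sr (T.rv d) :: P) = _ from pset_cons h P (revP h ⟨d, h1⟩)]
      refine Drawing.Collapsible.addSegment (𝒟 := drawing h) ⟨d, h1⟩ hc ?_ ?_
      · exact (src_mem_pset h P ⟨d, h1⟩).2 (List.contains_iff_mem.1 h1')
      · intro hmem
        exact h2 (List.contains_iff_mem.2 ((src_mem_pset h P (revP h ⟨d, h1⟩)).1 hmem))

/-- Check a certificate for the pair of edges `k`, `l`; `vd k` is a dart of `k` at a vertex. -/
def pairOK (T : Tab) (vd : ℕ → ℕ) (cert : List ℕ) (k l : ℕ) : Bool :=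
  match cert with
  | [] => false
  | d0 :: ds =>
    match run T [T.sr d0] [] (d0 :: ds) with
    | none => false
    | some (_, E) => (arcL T 8 (vd k) ++ arcL T 8 (vd l)).all
        (fun y => E.contains y && E.contains (T.rv y))

theorem pairOK_spec {vd : ℕ → ℕ} {cert : List ℕ} {k l : ℕ} (hp : pairOK T vd cert k l = true)
    (hall : ∀ x < T.N, x ∈ arcL T 8 (vd (T.et x)) ∨ T.rv x ∈ arcL T 8 (vd (T.et x))) :
    ∃ P E, (drawing h).Collapsible P E ∧
      ∀ x : Fin T.N, T.et x = k ∨ T.et x = l → x ∈ (show Set (Fin T.N) from E) := by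
  unfold pairOK at hp
  rcases cert with _ | ⟨d0, ds⟩
  · simp at hp
  · simp only at hp
    rcases hr : run T [T.sr d0] [] (d0 :: ds) with _ | ⟨P, E⟩
    · rw [hr] at hp; simp at hp
    · rw [hr] at hp
      simp only [List.all_eq_true, List.mem_append, Bool.and_eq_true] at hp
      have hd0 : d0 < T.N := by
        by_contra hlt
        unfold run at hr
        rw [if_neg (fun hh => hlt hh.1)] at hr
        exact absurd hr (by simp)
      refine ⟨pset h P, dset T E, ?_, ?_⟩
      · refine run_spec h _ _ _ _ _ hr ?_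
        have h1 : pset h [T.sr d0] = {srcF h ⟨d0, hd0⟩} := by
          rw [show pset h [T.sr d0] = _ from pset_cons h [] ⟨d0, hd0⟩]
          have : pset h [] = ∅ := by
            ext p
            constructor
            · rintro ⟨x, -, hx⟩
              exact absurd hx (by simp)
            · intro hx
              exact absurd hx (by simp)
          rw [this, insert_empty_eq]
        have h2 : dset T [] = ∅ := by
          ext x
          constructor
          · intro hx
            exact absurd (show x.val ∈ ([] : List ℕ) from hx) (by simp)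
          · intro hx
            exact absurd hx (by simp)
        rw [h1, h2]
        exact Drawing.Collapsible.point _
      · intro x hx
        have hx' : (arcL T 8 (vd (T.et x))) ⊆ arcL T 8 (vd k) ++ arcL T 8 (vd l) := by
          intro y hy
          rcases hx with hx | hx
          · rw [hx] at hy; exact List.mem_append_left _ hy
          · rw [hx] at hy; exact List.mem_append_right _ hy
        show (x : ℕ) ∈ E
        rcases hall x x.2 with h1 | h1
        · have h2 := hp _ (List.mem_append.1 (hx' h1))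
          exact List.contains_iff_mem.1 h2.1
        · have h2 := hp _ (List.mem_append.1 (hx' h1))
          rw [h.rv_rv x x.2] at h2
          exact List.contains_iff_mem.1 h2.2

theorem adjacentPairsInDiscs {vd : ℕ → ℕ} (cert : ℕ → ℕ → List ℕ)
    (hall : ∀ x < T.N, x ∈ arcL T 8 (vd (T.et x)) ∨ T.rv x ∈ arcL T 8 (vd (T.et x)))
    (hpair : ∀ d < T.N, T.sr d < T.nV →
      (T.nx d = d ∨ pairOK T vd (cert d (T.nx d)) (T.et d) (T.et (T.nx d)) = true) ∧
      (T.nx (T.nx d) = d ∨
        pairOK T vd (cert d (T.nx (T.nx d))) (T.et d) (T.et (T.nx (T.nx d))) = true) ∧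
      (T.nx (T.nx (T.nx d)) = d ∨ pairOK T vd (cert d (T.nx (T.nx (T.nx d)))) (T.et d)
        (T.et (T.nx (T.nx (T.nx d)))) = true)) :
    (drawing h).AdjacentPairsInDiscs := by
  intro e he f hf hef ⟨v, hve, hvf⟩
  obtain ⟨d, ⟨hd1, hd2⟩, -⟩ := (drawing h).vertex_unique v e he hve
  obtain ⟨d', ⟨hd1', hd2'⟩, -⟩ := (drawing h).vertex_unique v f hf hvf
  have hd1s : srcF h d = Sum.inl v := hd1
  have hd1s' : srcF h d' = Sum.inl v := hd1'
  have hlt : T.sr (show Fin T.N from d).val < T.nV := ((srcF_inl h d v).1 hd1s).1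
  have hsr : T.sr (show Fin T.N from d).val = T.sr (show Fin T.N from d').val :=
    (srcF_eq_iff h _ _).1 (hd1s.trans hd1s'.symm)
  have hsc : (nextP h).SameCycle d d' := sameCycle_of_sr h hsr
  have hne : d' ≠ d := by
    rintro rfl
    exact hef (hd2.symm.trans hd2')
  have key := reach_four h hlt
  obtain ⟨n, -, hn, -⟩ := first_hit hsc
  have fin : ∀ d'' : Fin T.N, d'' = d' →
      (∃ c, pairOK T vd c (T.et (show Fin T.N from d).val) (T.et d'') = true) →
      ∃ P E, (drawing h).Collapsible P E ∧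
        ∀ x, (drawing h).edge x = e ∨ (drawing h).edge x = f → x ∈ E := by
    rintro d'' rfl ⟨c, hc⟩
    obtain ⟨P, E, hPE, hx⟩ := pairOK_spec h hc hall
    refine ⟨P, E, hPE, ?_⟩
    intro x hxe
    refine hx x ?_
    rcases hxe with h1 | h1
    · left
      exact (edgeF_eq_iff h _ _).1 (h1.trans hd2.symm)
    · right
      exact (edgeF_eq_iff h _ _).1 (h1.trans hd2'.symm)
  obtain ⟨p1, p2, p3⟩ := hpair (show Fin T.N from d).val (show Fin T.N from d).2 hlt
  rcases key n with h1 | h1 | h1 | h1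
  · exact absurd (hn.symm.trans h1) hne
  · refine fin (nextP h d) (h1.symm.trans hn) ⟨_, p1.resolve_left fun hh => hne ?_⟩
    exact (hn.symm.trans h1).trans (Fin.ext hh)
  · refine fin (nextP h (nextP h d)) (h1.symm.trans hn) ⟨_, p2.resolve_left fun hh => hne ?_⟩
    exact (hn.symm.trans h1).trans (Fin.ext hh)
  · refine fin (nextP h (nextP h (nextP h d))) (h1.symm.trans hn)
      ⟨_, p3.resolve_left fun hh => hne ?_⟩
    exact (hn.symm.trans h1).trans (Fin.ext hh)

end Tab

end ErEven
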