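import Pool.Agent.Work.MP_a2800b_co.Lower

/-!
# Counting faces when every ring has a square that is not a face
-/

namespace ErEven

open Equiv Dt

/-- Base weight. -/
def W0 (x : Dt) : ℕ := if isGrid x then 2 else match x with
  | O _ _ => 12
  | _ => 0

open Classical in
/-- The darts on square faces. -/
noncomputable def SQ (σ : Perm Dt) : Finset Dt :=
  Finset.univ.filter fun x => ∃ c r s i, Facial σ c r s ∧ x = sq c r s i

open Classical in
/-- The weight. -/
noncomputable def W (σ : Perm Dt) (x : Dt) : ℕ := W0 x + if x ∈ SQ σ then 1 else 0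

theorem two_le_W (σ : Perm Dt) {x : Dt} (hx : isGrid x = true) : 2 ≤ W σ x := by
  unfold W W0
  rw [if_pos hx]
  omega

theorem three_le_W {σ : Perm Dt} {c : Fin 6} {r : Fin 28} {s : Bool} (i : Fin 4)
    (hf : Facial σ c r s) : 3 ≤ W σ (sq c r s i) := by
  have h1 : sq c r s i ∈ SQ σ := by
    unfold SQ
    simp only [Finset.mem_filter, Finset.mem_univ, true_and]
    exact ⟨c, r, s, i, hf, rfl⟩
  unfold W W0
  rw [if_pos (isGrid_sq c r s i), if_pos h1]

theorem grid_of_no_hub {σ : Perm Dt} (hσ : IsRot σ) {x : Dt}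
    (hO : ∀ s c, ¬ (fc σ).SameCycle x (O s c)) : isGrid x = true := by
  by_contra hg
  rcases x with ⟨c, j, i⟩ | ⟨s, c⟩ | ⟨s, c⟩ | ⟨s, c⟩
  · simp [isGrid] at hg
    have hterm : ∀ s, rv (h c j i) = B s c → False := by
      intro s hB
      have h1 : fc σ (h c j i) = A s c := by rw [fc_apply, hB, rot_B hσ]
      obtain ⟨s', c', h2, -⟩ := rot_O hσ s c
      have h3 : fc σ (A s c) = O s' c' := h2
      refine hO s' c' ⟨2, ?_⟩
      show fc σ (fc σ (h c j i)) = _
      rw [h1, h3]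
    by_cases h0 : j = 0 ∧ i = 3
    · obtain ⟨rfl, rfl⟩ := h0
      exact hterm false rfl
    · obtain ⟨rfl, rfl⟩ := hg (by tauto)
      exact hterm true rfl
  · exact hO s c (Perm.SameCycle.refl _ _)
  · obtain ⟨s', c', h2, -⟩ := rot_O hσ s c
    have h3 : fc σ (A s c) = O s' c' := h2
    exact hO s' c' ⟨1, by rw [zpow_one, h3]⟩
  · have h1 : fc σ (O s c) = B s c := by rw [fc_apply]; exact rot_A hσ s c
    exact hO s c (Perm.SameCycle.symm ⟨1, by rw [zpow_one, h1]⟩)

open Classical in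
theorem sum_ge_of_inj {σ : Perm Dt} {x : Dt} {k w : ℕ} (f : Fin k → Dt)
    (hinj : Function.Injective f) (hf : ∀ i, (fc σ).SameCycle x (f i)) (hw : ∀ i, w ≤ W σ (f i)) :
    k * w ≤ ∑ y ∈ Finset.univ.filter (fun y => (fc σ).SameCycle x y), W σ y := by
  calc k * w = ∑ _y ∈ Finset.univ.image f, w := by
        rw [Finset.sum_const, Finset.card_image_of_injective _ hinj, Finset.card_univ,
          Fintype.card_fin, smul_eq_mul]
    _ ≤ ∑ y ∈ Finset.univ.image f, W σ y := by
        apply Finset.sum_le_sum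
        intro y hy
        obtain ⟨i, -, rfl⟩ := Finset.mem_image.1 hy
        exact hw i
    _ ≤ _ := by
        apply Finset.sum_le_sum_of_subset
        intro y hy
        obtain ⟨i, -, rfl⟩ := Finset.mem_image.1 hy
        simp only [Finset.mem_filter, Finset.mem_univ, true_and]
        exact hf i

theorem nd_cover : ∀ (s : Bool) (i : Fin 4),
    i = 0 ∨ i = nd s 0 ∨ i = nd s (nd s 0) ∨ i = nd s (nd s (nd s 0)) := by decide

theorem nd_four : ∀ (s : Bool) (i : Fin 4), nd s (nd s (nd s (nd s i))) = i := by decide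

theorem four_square_sum {σ : Perm Dt} (hσ : IsRot σ) {y : Dt}
    (hg : ∀ n : ℕ, isGrid ((fc σ ^ n) y) = true)
    (h4 : (fc σ ^ 4) y = y) (h0 : dir y = 0) {s : Bool} (h1 : dir (fc σ y) = nd s 0)
    (h2 : dir (fc σ (fc σ y)) = nd s (nd s 0))
    (h3 : dir (fc σ (fc σ (fc σ y))) = nd s (nd s (nd s 0))) :
    ∃ c r, Facial σ c r s ∧ ∀ i, (fc σ).SameCycle y (sq c r s i) := by
  obtain ⟨c, r, hf, y0, y1, y2, y3⟩ := square_of_walk hσ hg h4 h0 h1 h2 h3
  refine ⟨c, r, hf, ?_⟩
  have s0 : (fc σ).SameCycle y (sq c r s 0) := ⟨0, y0⟩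
  have s1 : (fc σ).SameCycle y (sq c r s (nd s 0)) := ⟨1, by rw [zpow_one]; exact y1⟩
  have s2 : (fc σ).SameCycle y (sq c r s (nd s (nd s 0))) := ⟨2, y2⟩
  have s3 : (fc σ).SameCycle y (sq c r s (nd s (nd s (nd s 0)))) := ⟨3, y3⟩
  intro i
  rcases nd_cover s i with rfl | rfl | rfl | rfl
  · exact s0
  · exact s1
  · exact s2
  · exact s3

theorem step_of {σ : Perm Dt} (hσ : IsRot σ) {x : Dt} (hg : ∀ n : ℕ, isGrid ((fc σ ^ n) x) = true)
    (n : ℕ) : col ((fc σ ^ (n + 1)) x) = col ((fc σ ^ n) x) + dx (dir ((fc σ ^ n) x)) ∧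
      row ((fc σ ^ (n + 1)) x) = row ((fc σ ^ n) x) + dy (dir ((fc σ ^ n) x)) ∧
      dir ((fc σ ^ (n + 1)) x) ≠ dir ((fc σ ^ n) x) + 2 := by
  have h1 := hg n
  have h2 := hg (n + 1)
  rw [pow_succ', Perm.mul_apply] at h2 ⊢
  exact grid_step hσ h1 h2

theorem periodic_dir {σ : Perm Dt} {x : Dt} {s : Bool} (hm : (fc σ ^ 4) x = x)
    (e1 : dir ((fc σ ^ 1) x) = nd s (dir x))
    (e2 : dir ((fc σ ^ 2) x) = nd s (dir ((fc σ ^ 1) x)))
    (e3 : dir ((fc σ ^ 3) x) = nd s (dir ((fc σ ^ 2) x)))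
    (e4 : dir x = nd s (dir ((fc σ ^ 3) x))) (n : ℕ) :
    dir ((fc σ ^ (n + 1)) x) = nd s (dir ((fc σ ^ n) x)) := by
  have hmod : ∀ n : ℕ, (fc σ ^ (n + 4)) x = (fc σ ^ n) x := by
    intro n
    rw [pow_add, Perm.mul_apply, hm]
  induction n using Nat.strong_induction_on with
  | _ n ih =>
    rcases Nat.lt_or_ge n 4 with h4 | h4
    · clear ih
      interval_cases n
      · simpa using e1
      · exact e2
      · exact e3
      · rw [show 3 + 1 = 4 from rfl, hm]; exact e4
    · obtain ⟨k, rfl⟩ : ∃ k, n = k + 4 := ⟨n - 4, (Nat.sub_add_cancel h4).symm⟩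
      have a1 := hmod k
      have a2 : (fc σ ^ (k + 4 + 1)) x = (fc σ ^ (k + 1)) x := hmod (k + 1)
      rw [a1, a2]
      exact ih k (Nat.lt_add_of_pos_right (by norm_num))

/-- A short closed walk is a square. -/
theorem short_walk {σ : Perm Dt} (hσ : IsRot σ) {x : Dt}
    (hg : ∀ n : ℕ, isGrid ((fc σ ^ n) x) = true) {m : ℕ} (hm1 : 1 ≤ m) (hm5 : m ≤ 5)
    (hm : (fc σ ^ m) x = x) :
    ∃ s c r, Facial σ c r s ∧ ∀ i, (fc σ).SameCycle x (sq c r s i) := by
  obtain ⟨c0, r0, d0⟩ := step_of hσ hg 0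
  obtain ⟨c1, r1, d1⟩ := step_of hσ hg 1
  obtain ⟨c2, r2, d2⟩ := step_of hσ hg 2
  obtain ⟨c3, r3, d3⟩ := step_of hσ hg 3
  obtain ⟨c4, r4, d4⟩ := step_of hσ hg 4
  simp only [zero_add, Nat.reduceAdd, pow_zero, Perm.coe_one, id_eq] at c0 r0 d0 c1 r1 d1 c2 r2 d2 c3 r3 d3 c4 r4 d4
  interval_cases m
  · rw [hm] at c0 r0
    exact absurd ⟨left_eq_add.1 c0, by linarith⟩ (walk1 (dir x))
  · rw [hm, c0, add_assoc] at c1
    rw [hm, r0] at r1
    exact absurd ⟨left_eq_add.1 c1, by linarith⟩ (walk2 (dir x) (dir ((fc σ ^ 1) x)) d0)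
  · rw [hm, c1, c0] at c2
    rw [hm, r1, r0] at r2
    refine absurd ⟨left_eq_add.1 (c2.trans ?_), by linarith⟩
      (walk3 (dir x) (dir ((fc σ ^ 1) x)) (dir ((fc σ ^ 2) x)))
    abel
  · have hc : dx (dir x) + dx (dir ((fc σ ^ 1) x)) + dx (dir ((fc σ ^ 2) x)) +
        dx (dir ((fc σ ^ 3) x)) = 0 := by
      rw [hm, c2, c1, c0] at c3
      refine left_eq_add.1 (c3.trans ?_)
      abel
    have hr : dy (dir x) + dy (dir ((fc σ ^ 1) x)) + dy (dir ((fc σ ^ 2) x)) +
        dy (dir ((fc σ ^ 3) x)) = 0 := by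
      rw [hm, r2, r1, r0] at r3
      linarith
    obtain ⟨s, e1, e2, e3, e4⟩ := walk4 (dir x) (dir ((fc σ ^ 1) x)) (dir ((fc σ ^ 2) x))
      (dir ((fc σ ^ 3) x)) d0 d1 d2 (by rw [hm] at d3; exact d3) ⟨hc, hr⟩
    -- find the dart that goes to the right
    have key : ∀ n : ℕ, dir ((fc σ ^ n) x) = 0 →
        ∃ s c r, Facial σ c r s ∧ ∀ i, (fc σ).SameCycle x (sq c r s i) := by
      intro n hn
      have hper := periodic_dir hm e1 e2 e3 e4
      obtain ⟨c, r, hf, hs⟩ := four_square_sum (s := s) hσ (y := (fc σ ^ n) x)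
        (fun k => by rw [← Perm.mul_apply, ← pow_add]; exact hg _)
        (by rw [← Perm.mul_apply, ← pow_add, add_comm, pow_add, Perm.mul_apply, hm]) hn
        (by rw [← Perm.mul_apply, ← pow_succ', hper, hn])
        (by rw [← Perm.mul_apply, ← Perm.mul_apply, mul_assoc, ← pow_succ', ← pow_succ', hper, hper,
              hn])
        (by rw [← Perm.mul_apply, ← Perm.mul_apply, ← Perm.mul_apply, mul_assoc, mul_assoc,
              ← pow_succ', ← pow_succ', ← pow_succ', hper, hper, hper, hn])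
      refine ⟨s, c, r, hf, fun i => ?_⟩
      have h1 : (fc σ).SameCycle x ((fc σ ^ n) x) := ⟨n, by rw [zpow_natCast]⟩
      exact h1.trans (hs i)
    rcases nd_cover s (dir x) with h | h | h | h
    · exact key 0 h
    · exact key 3 (by rw [e3, e2, e1, h, nd_four])
    · exact key 2 (by rw [e2, e1, h, nd_four])
    · exact key 1 (by rw [e1, h, nd_four])
  · rw [hm, c3, c2, c1, c0] at c4
    rw [hm, r3, r2, r1, r0] at r4
    refine absurd ⟨left_eq_add.1 (c4.trans ?_), by linarith⟩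
      (walk5 (dir x) (dir ((fc σ ^ 1) x)) (dir ((fc σ ^ 2) x)) (dir ((fc σ ^ 3) x))
        (dir ((fc σ ^ 4) x)))
    abel

theorem sq_inj (c : Fin 6) (r : Fin 28) (s : Bool) : Function.Injective (sq c r s) := by
  intro i i' hh
  have h1 : ∀ i, dir (sq c r s i) = i := by
    intro i
    cases s <;> fin_cases i <;> rfl
  rw [← h1 i, ← h1 i', hh]

open Classical in
/-- Every face has weight at least 12. -/
theorem face_weight {σ : Perm Dt} (hσ : IsRot σ) (x : Dt) :
    12 ≤ ∑ y ∈ Finset.univ.filter (fun y => (fc σ).SameCycle x y), W σ y := by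
  by_cases hO : ∃ s c, (fc σ).SameCycle x (O s c)
  · obtain ⟨s, c, hO⟩ := hO
    have h1 : W σ (O s c) ≤ ∑ y ∈ Finset.univ.filter (fun y => (fc σ).SameCycle x y), W σ y :=
      Finset.single_le_sum (f := W σ) (fun _ _ => Nat.zero_le _)
        (by simp only [Finset.mem_filter, Finset.mem_univ, true_and]; exact hO)
    have h2 : 12 ≤ W σ (O s c) := by
      unfold W W0
      simp [isGrid]
    exact h2.trans h1
  · have hg : ∀ n : ℕ, isGrid ((fc σ ^ n) x) = true := by
      intro n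
      apply grid_of_no_hub hσ
      intro s c hs
      refine hO ⟨s, c, ?_⟩
      have h1 : (fc σ).SameCycle x ((fc σ ^ n) x) := ⟨n, by rw [zpow_natCast]⟩
      exact h1.trans hs
    by_cases hd : ∃ m, 1 ≤ m ∧ m ≤ 5 ∧ (fc σ ^ m) x = x
    · obtain ⟨m, hm1, hm5, hm⟩ := hd
      obtain ⟨s, c, r, hf, hs⟩ := short_walk hσ hg hm1 hm5 hm
      exact sum_ge_of_inj (k := 4) (w := 3) (sq c r s) (sq_inj c r s) hs
        (fun i => three_le_W i hf)
    · push Not at hd
      refine sum_ge_of_inj (k := 6) (w := 2) (fun k : Fin 6 => (fc σ ^ (k : ℕ)) x) ?_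
        (fun k => ⟨k, by rw [zpow_natCast]⟩) (fun k => two_le_W σ (hg k))
      have key : ∀ a b : ℕ, a < b → b < 6 → (fc σ ^ a) x ≠ (fc σ ^ b) x := by
        intro a b hab hb hh
        refine hd (b - a) (by omega) (by omega) ?_
        have h1 : b = a + (b - a) := by omega
        rw [h1, pow_add, Perm.mul_apply] at hh
        exact ((fc σ ^ a).injective hh).symm
      intro a b hab
      by_contra hne
      rcases Nat.lt_or_gt_of_ne (fun h => hne (Fin.ext h)) with hlt | hlt
      · exact key a b hlt b.2 hab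
      · exact key b a hlt a.2 hab.symm

theorem sum_W0 : ∑ x : Dt, W0 x = 1512 := by decide +kernel

open Classical in
theorem card_facial_le {σ : Perm Dt} (hσ : IsRot σ) {r : Fin 28} {c0 : Fin 6}
    (h0 : ∀ s, ¬ Facial σ c0 r s) :
    (Finset.univ.filter fun p : Fin 6 × Bool => Facial σ p.1 r p.2).card ≤ 5 := by
  have h1 : (Finset.univ.filter fun p : Fin 6 × Bool => Facial σ p.1 r p.2).card ≤
      (Finset.univ.erase c0).card := by
    apply Finset.card_le_card_of_injOn (fun p => p.1)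
    · intro p hp
      simp only [Finset.coe_filter, Finset.mem_univ, true_and, Set.mem_ofPred_eq] at hp
      simp only [Finset.coe_erase, Finset.coe_univ, Set.mem_sdiff, Set.mem_univ,
        Set.mem_singleton_iff, true_and]
      intro hc
      exact h0 p.2 (hc ▸ hp)
    · rintro ⟨c, s⟩ hp ⟨c', s'⟩ hp' hcc
      simp only [Finset.coe_filter, Finset.mem_univ, true_and, Set.mem_ofPred_eq] at hp hp' hcc
      subst hcc
      cases s <;> cases s'
      · rfl
      · exact (facial_excl hσ hp hp').elim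
      · exact (facial_excl hσ hp' hp).elim
      · rfl
  rw [Finset.card_erase_of_mem (Finset.mem_univ _), Finset.card_univ, Fintype.card_fin] at h1
  exact h1

open Classical in
theorem card_SQ_le {σ : Perm Dt} (hσ : IsRot σ) (hni : ∀ r : Fin 28, ∃ c, ∀ s, ¬ Facial σ c r s) :
    (SQ σ).card ≤ 560 := by
  have hsub : SQ σ ⊆ (Finset.univ : Finset (Fin 28)).biUnion fun r =>
      (Finset.univ.filter fun p : Fin 6 × Bool => Facial σ p.1 r p.2).biUnion fun p =>
        Finset.univ.image (sq p.1 r p.2) := by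
    intro x hx
    unfold SQ at hx
    simp only [Finset.mem_filter, Finset.mem_univ, true_and] at hx
    obtain ⟨c, r, s, i, hf, rfl⟩ := hx
    simp only [Finset.mem_biUnion, Finset.mem_univ, true_and, Finset.mem_filter, Finset.mem_image]
    exact ⟨r, (c, s), hf, i, rfl⟩
  refine (Finset.card_le_card hsub).trans ?_
  refine (Finset.card_biUnion_le_card_mul _ _ 20 ?_).trans ?_
  · intro r _
    refine (Finset.card_biUnion_le_card_mul _ _ 4 ?_).trans ?_
    · intro p _
      exact Finset.card_image_le.trans (by simp)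
    · obtain ⟨c0, h0⟩ := hni r
      have := card_facial_le hσ h0
      omega
  · simp

open Classical in
/-- If in every ring some square is not a face, there are at most 172 faces. -/
theorem count_le {σ : Perm Dt} (hσ : IsRot σ)
    (hni : ∀ r : Fin 28, ∃ c, ∀ s, ¬ Facial σ c r s) : numCycles (fc σ) ≤ 172 := by
  set Q := Quotient (Perm.SameCycle.setoid (fc σ)) with hQ
  have : Fintype Q := Fintype.ofFinite Q
  have h1 : ∑ x : Dt, W σ x = ∑ q : Q, ∑ x ∈ Finset.univ.filter
      (fun x : Dt => (Quotient.mk _ x : Q) = q), W σ x :=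
    (Finset.sum_fiberwise _ _ _).symm
  have h2 : ∀ q : Q, 12 ≤ ∑ x ∈ Finset.univ.filter
      (fun x : Dt => (Quotient.mk _ x : Q) = q), W σ x := by
    rintro ⟨x⟩
    refine (face_weight hσ x).trans (le_of_eq ?_)
    apply Finset.sum_congr _ (fun _ _ => rfl)
    ext y
    simp only [Finset.mem_filter, Finset.mem_univ, true_and]
    constructor
    · intro h
      exact Quotient.sound (Perm.SameCycle.symm h)
    · intro h
      exact (Quotient.exact h : (fc σ).SameCycle y x).symm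
  have h3 : 12 * numCycles (fc σ) ≤ ∑ x : Dt, W σ x := by
    rw [h1]
    calc 12 * numCycles (fc σ) = ∑ _q : Q, 12 := by
          rw [Finset.sum_const, Finset.card_univ, smul_eq_mul, mul_comm]
          unfold numCycles
          rw [Nat.card_eq_fintype_card]
      _ ≤ _ := Finset.sum_le_sum fun q _ => h2 q
  have h4 : ∑ x : Dt, W σ x = 1512 + (SQ σ).card := by
    have e1 : ∑ x : Dt, W σ x = ∑ x : Dt, W0 x + ∑ x : Dt, (if x ∈ SQ σ then 1 else 0) :=
      Finset.sum_add_distrib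
    have e2 : ∑ x : Dt, (if x ∈ SQ σ then 1 else 0) = (SQ σ).card := by
      rw [← Finset.sum_filter, Finset.filter_mem_eq_inter, Finset.univ_inter, Finset.sum_const,
        smul_eq_mul, mul_one]
    rw [e1, e2]
    exact congrArg (· + (SQ σ).card) sum_W0
  have h5 := card_SQ_le hσ hni
  omega

end ErEven
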