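import Mathlib

/-!
# Drawings of graphs on closed oriented surfaces, combinatorially

A drawing of a graph on a closed oriented surface (cellular, i.e. the complement of the drawing
is a union of open discs) is recorded, up to homeomorphism, by its planarisation: a connected
combinatorial map whose points are the vertices of the graph and the crossings.
-/

namespace ErEven

open Equiv

/-- The number of cycles of a permutation of a finite set, fixed points included. -/
noncomputable def numCycles {D : Type} (τ : Perm D) : ℕ :=
  Nat.card (Quotient (Perm.SameCycle.setoid τ))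

/-- A drawing of a simple graph `G` on a connected closed oriented surface, with all faces open
discs, given by its planarisation. -/
structure Drawing {V : Type} (G : SimpleGraph V) where
  /-- the crossings -/
  C : Type
  /-- the darts: a dart is a segment (a piece of an edge of `G` between two consecutive points,
  vertices or crossings, of that edge) with a direction -/
  D : Type
  finC : Finite C
  finD : Finite D
  /-- the next dart, counterclockwise, around the point where the dart starts -/
  next : Perm D
  /-- the same segment with the other direction -/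
  rev : Perm D
  /-- the point, a vertex of `G` or a crossing, where the dart starts -/
  src : D → V ⊕ C
  /-- the edge of `G` of which the dart is a piece -/
  edge : D → Sym2 V
  rev_rev : ∀ d, rev (rev d) = d
  rev_ne : ∀ d, rev d ≠ d
  edge_rev : ∀ d, edge (rev d) = edge d
  edge_mem : ∀ d, edge d ∈ G.edgeSet
  src_surjective : Function.Surjective src
  /-- the darts that start at a point form one cycle of `next` -/
  src_eq_iff : ∀ d d', src d = src d' ↔ next.SameCycle d d'
  /-- the planarisation is connected -/
  connected : ∀ d d', ∃ g ∈ Subgroup.closure {next, rev}, g d = d'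
  /-- only edges at the vertex `v` start at `v` -/
  vertex_mem : ∀ d v, src d = Sum.inl v → v ∈ edge d
  /-- each edge at the vertex `v` has exactly one dart that starts at `v` -/
  vertex_unique : ∀ v, ∀ e ∈ G.edgeSet, v ∈ e → ∃! d, src d = Sum.inl v ∧ edge d = e
  /-- at a crossing there are four darts; opposite ones belong to the same edge and
  consecutive ones to distinct edges -/
  crossing : ∀ d c, src d = Sum.inr c →
    next (next (next (next d))) = d ∧ next (next d) ≠ d ∧
      edge (next (next d)) = edge d ∧ edge (next d) ≠ edge d
  /-- going straight ahead from any dart one arrives at a vertex of `G`, so that the segments of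
  an edge form one arc between the two ends of the edge -/
  straight : ∀ d, ∃ n : ℕ, ∃ v, src (rev ((fun x => next (next (rev x)))^[n] d)) = Sum.inl v

namespace Drawing

variable {V : Type} {G : SimpleGraph V} (𝒟 : Drawing G)

/-- The next dart on the boundary walk of the face on the right of a dart. -/
def face : Perm 𝒟.D := 𝒟.next * 𝒟.rev

/-- The Euler characteristic of the surface: points minus segments plus faces. -/
noncomputable def eulerChar : ℤ :=
  (numCycles 𝒟.next : ℤ) - numCycles 𝒟.rev + numCycles 𝒟.face

/-- The set of crossings of the edges `e` and `f`. -/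
def crossings (e f : Sym2 V) : Set 𝒟.C :=
  {c | (∃ d, 𝒟.src d = Sum.inr c ∧ 𝒟.edge d = e) ∧ ∃ d, 𝒟.src d = Sum.inr c ∧ 𝒟.edge d = f}

/-- Every two edges without a common endpoint cross an even number of times. -/
def IndependentlyEven : Prop :=
  ∀ e ∈ G.edgeSet, ∀ f ∈ G.edgeSet, (∀ v, ¬ (v ∈ e ∧ v ∈ f)) → Even (𝒟.crossings e f).ncard

/-- `Collapsible P E`: the points `P` and the segments `E` (as a set of darts) are those of a
subcomplex of the cell decomposition of the surface that is obtained from one point by elementary
expansions: attach a segment by one of its ends, the other end being a new point, or attach a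
face together with one new segment, the rest of the boundary of the face being there already.
Such a subcomplex is collapsible, so a regular neighbourhood of it is a closed disc. -/
inductive Collapsible : Set (V ⊕ 𝒟.C) → Set 𝒟.D → Prop
  | point (p : V ⊕ 𝒟.C) : Collapsible {p} ∅
  | addSegment {P : Set (V ⊕ 𝒟.C)} {E : Set 𝒟.D} (d : 𝒟.D) (h : Collapsible P E)
      (hd : 𝒟.src d ∈ P) (hd' : 𝒟.src (𝒟.rev d) ∉ P) :
      Collapsible (insert (𝒟.src (𝒟.rev d)) P) (E ∪ {d, 𝒟.rev d})
  | addFace {P : Set (V ⊕ 𝒟.C)} {E : Set 𝒟.D} (d : 𝒟.D) (h : Collapsible P E)
      (hd : 𝒟.src d ∈ P) (hd' : 𝒟.src (𝒟.rev d) ∈ P) (hE : d ∉ E)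
      (hf : ∀ x, 𝒟.face.SameCycle d x → x ≠ d → x ∈ E) :
      Collapsible P (E ∪ {d, 𝒟.rev d})

/-- For any two adjacent edges some closed disc in the surface contains both arcs: they lie in
a collapsible subcomplex. -/
def AdjacentPairsInDiscs : Prop :=
  ∀ e ∈ G.edgeSet, ∀ f ∈ G.edgeSet, e ≠ f → (∃ v, v ∈ e ∧ v ∈ f) →
    ∃ P E, 𝒟.Collapsible P E ∧ ∀ d, 𝒟.edge d = e ∨ 𝒟.edge d = f → d ∈ E

end Drawing

end ErEven
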