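import Pool.Agent.Work.MP_a2800b_co.Perms

/-!
# The graph

The grid on a cylinder with 6 columns and 29 circles; each vertex of the two end circles is joined
by a path of length two (a leg) to one of three hubs.
-/

namespace ErEven

open Equiv

/-- The darts of the graph. `h c j i` is the dart at the grid vertex in column `c` and circle `j`
in direction `i` (0 right, 1 up, 2 left, 3 down). For the leg at side `s` and column `c`,
`O s c` is the dart at the hub, `A s c` the dart from the middle vertex to the hub and `B s c` the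
dart from the middle vertex to the grid. -/
inductive Dt where
  | h (c : Fin 6) (j : Fin 29) (i : Fin 4)
  | O (s : Bool) (c : Fin 6)
  | A (s : Bool) (c : Fin 6)
  | B (s : Bool) (c : Fin 6)
deriving DecidableEq, Fintype

/-- The hub of a leg. -/
def lab (s : Bool) (c : Fin 6) : Fin 3 :=
  match s with
  | false => ⟨c.val % 3, Nat.mod_lt _ (by norm_num)⟩
  | true => ⟨(6 - c.val) % 3, Nat.mod_lt _ (by norm_num)⟩

namespace Dt

/-- The reversed dart. -/
def rv : Dt → Dt
  | h c j 0 => h (c + 1) j 2
  | h c j 2 => h (c - 1) j 0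
  | h c j 1 => if hj : j.val + 1 < 29 then h c ⟨j.val + 1, hj⟩ 3 else B true c
  | h c j 3 => if 0 < j.val then h c ⟨j.val - 1, by omega⟩ 1 else B false c
  | O s c => A s c
  | A s c => O s c
  | B false c => h c 0 3
  | B true c => h c 28 1

/-- The number of the vertex at which a dart starts. -/
def org : Dt → ℕ
  | h c j _ => 6 * j.val + c.val
  | O s c => 174 + (lab s c).val
  | A s c => 177 + (if s then 6 else 0) + c.val
  | B s c => 177 + (if s then 6 else 0) + c.val

theorem org_lt (x : Dt) : x.org < 189 := by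
  rcases x with ⟨c, j, i⟩ | ⟨s, c⟩ | ⟨s, c⟩ | ⟨s, c⟩ <;> simp only [org]
  · omega
  · omega
  · split_ifs <;> omega
  · split_ifs <;> omega

theorem rv_rv (x : Dt) : x.rv.rv = x := by
  rcases x with ⟨c, j, i⟩ | ⟨s, c⟩ | ⟨s, c⟩ | ⟨s, c⟩
  · fin_cases i
    · simp [rv]
    · simp only [Fin.mk_one, rv]
      split_ifs with h1
      · simp [rv]
      · have : j = 28 := by ext; simp; omega
        subst this
        simp [rv]
    · simp [rv]
    · simp only [Fin.reduceFinMk, rv]
      split_ifs with h1
      · have h2 : j.val - 1 + 1 < 29 := by omega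
        simp only [rv, h2, dif_pos]
        congr 1
        ext; simp; omega
      · have : j = 0 := by ext; simp; omega
        subst this
        simp [rv]
  · rfl
  · rfl
  · cases s <;> simp [rv]

theorem rv_up (c : Fin 6) (r : Fin 28) : rv (h c r.castSucc 1) = h c r.succ 3 := by
  simp only [rv, Fin.val_castSucc]
  rw [dif_pos (by omega)]
  rfl

theorem rv_down (c : Fin 6) (r : Fin 28) : rv (h c r.succ 3) = h c r.castSucc 1 := by
  rw [← rv_up, rv_rv]

theorem org_rv_ne (x : Dt) : x.rv.org ≠ x.org := by
  rcases x with ⟨c, j, i⟩ | ⟨s, c⟩ | ⟨s, c⟩ | ⟨s, c⟩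
  · fin_cases i
    · simp only [rv, org, Fin.zero_eta]
      fin_cases c <;> simp
    · simp only [rv, Fin.mk_one]
      split_ifs with h1 <;> simp only [org]
      · omega
      · simp only [if_true]; omega
    · simp only [rv, org, Fin.reduceFinMk]
      fin_cases c <;> simp <;> rfl
    · simp only [rv, Fin.reduceFinMk]
      split_ifs with h1 <;> simp only [org]
      · omega
      · simp; omega
  · simp only [rv, org]
    have := (lab s c).2
    omega
  · simp only [rv, org]
    have := (lab s c).2
    omega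
  · cases s <;> simp only [rv, org] <;> simp <;> omega

theorem h_dir_inj (c : Fin 6) (j : Fin 29) : ∀ i i' : Fin 4,
    (h c j i).rv.org = (h c j i').rv.org → i = i' := by
  revert c j
  decide +kernel

theorem leg_inj {s s' : Bool} {c c' : Fin 6}
    (hh : 177 + (if s then 6 else 0) + c.val = 177 + (if s' then 6 else 0) + c'.val) :
    s = s' ∧ c = c' := by
  cases s <;> cases s' <;> simp at hh ⊢ <;> first | omega | (exact Fin.ext (by omega))

theorem ext_org {x y : Dt} (h1 : x.org = y.org) (h2 : x.rv.org = y.rv.org) : x = y := by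
  rcases x with ⟨c, j, i⟩ | ⟨s, c⟩ | ⟨s, c⟩ | ⟨s, c⟩ <;>
    rcases y with ⟨c', j', i'⟩ | ⟨s', c'⟩ | ⟨s', c'⟩ | ⟨s', c'⟩
  · simp only [org] at h1
    have hj : j = j' := Fin.ext (by omega)
    have hc : c = c' := Fin.ext (by omega)
    subst hj hc
    rw [h_dir_inj c j i i' h2]
  · simp only [org] at h1; omega
  · simp only [org] at h1; omega
  · simp only [org] at h1; omega
  · simp only [org] at h1; omega
  · simp only [rv, org] at h2
    obtain ⟨rfl, rfl⟩ := leg_inj h2
    rfl
  · have := (lab s c).2
    simp only [org] at h1; omega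
  · have := (lab s c).2
    simp only [org] at h1; omega
  · simp only [org] at h1; omega
  · have := (lab s' c').2
    simp only [org] at h1; omega
  · simp only [org] at h1
    obtain ⟨rfl, rfl⟩ := leg_inj h1
    rfl
  · have := (lab s c).2
    cases s' <;> simp only [rv, org] at h2 <;> simp at h2 <;> omega
  · simp only [org] at h1; omega
  · have := (lab s' c').2
    simp only [org] at h1; omega
  · have := (lab s' c').2
    cases s <;> simp only [rv, org] at h2 <;> simp at h2 <;> omega
  · simp only [org] at h1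
    obtain ⟨rfl, rfl⟩ := leg_inj h1
    rfl

/-- `rv` as a permutation. -/
def rvP : Perm Dt := ⟨rv, rv, rv_rv, rv_rv⟩

@[simp] theorem rvP_apply (x : Dt) : rvP x = rv x := rfl

end Dt

/-- The graph. -/
def G : SimpleGraph (Fin 189) where
  Adj u v := ∃ x : Dt, x.org = u ∧ x.rv.org = v
  symm := ⟨by rintro u v ⟨x, h1, h2⟩; exact ⟨x.rv, h2, by rw [Dt.rv_rv]; exact h1⟩⟩
  loopless := ⟨by rintro u ⟨x, h1, h2⟩; exact Dt.org_rv_ne x (h2.trans h1.symm)⟩

/-- A dart that goes towards vertex 0. -/
def toRoot (v : ℕ) : Dt :=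
  if h1 : v < 6 then Dt.h ⟨v, h1⟩ 0 2
  else if h2 : v < 174 then Dt.h ⟨v % 6, Nat.mod_lt _ (by norm_num)⟩ ⟨v / 6, by omega⟩ 3
  else if v = 174 then Dt.O false 0
  else if v = 175 then Dt.O false 1
  else if v = 176 then Dt.O false 2
  else if h3 : v < 183 then Dt.B false ⟨(v - 177) % 6, Nat.mod_lt _ (by norm_num)⟩
  else Dt.B true ⟨(v - 183) % 6, Nat.mod_lt _ (by norm_num)⟩

/-- A measure that decreases along `toRoot`. -/
def toRootMeas (v : ℕ) : ℕ := if 174 ≤ v ∧ v < 177 then 1000 else v

theorem toRoot_spec : ∀ v : Fin 189, v = 0 ∨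
    ((toRoot v).org = v ∧ toRootMeas (toRoot v).rv.org < toRootMeas v) := by
  decide +kernel

theorem G_reachable (n : ℕ) : ∀ v : Fin 189, toRootMeas v = n → G.Reachable v 0 := by
  induction n using Nat.strong_induction_on with
  | _ n ih =>
    intro v hv
    rcases toRoot_spec v with rfl | ⟨h1, h2⟩
    · exact SimpleGraph.Reachable.refl _
    · have hadj : G.Adj v ⟨(toRoot v).rv.org, Dt.org_lt _⟩ := ⟨toRoot v, h1, rfl⟩
      exact hadj.reachable.trans (ih _ (by rw [← hv]; exact h2) _ rfl)

theorem G_connected : G.Connected := by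
  haveI : Nonempty (Fin 189) := ⟨0⟩
  exact ⟨fun u v => (G_reachable _ u rfl).trans (G_reachable _ v rfl).symm⟩

end ErEven
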