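import Pool.Agent.Work.MP_a2800b_co.Count

/-!
# Counting faces when all squares of one ring are faces
-/

namespace ErEven

open Equiv Dt

/-- In a cycle of `σ`, if all darts but `u`, `w` are passed freely, then `g w = g (σ u)`. -/
theorem two_kept {σ : Perm Dt} {g : Dt → ℚ} {u w : Dt} (hs : σ.SameCycle u w)
    (hfree : ∀ z, σ.SameCycle u z → z ≠ u → z ≠ w → g (σ z) = g z) : g w = g (σ u) := by
  obtain ⟨n, hn1, hn, hmin⟩ := first_hit hs
  have key : ∀ m, 1 ≤ m → m ≤ n → g ((σ ^ m) u) = g (σ u) := by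
    intro m hm
    induction m, hm using Nat.le_induction with
    | base => intro _; rfl
    | succ m hm ih =>
      intro hmn
      rw [pow_succ', Perm.mul_apply, ← ih (by omega)]
      obtain ⟨h1, h2⟩ := hmin m hm (by omega)
      exact hfree _ ⟨m, by rw [zpow_natCast]⟩ h2 h1
  rw [← hn]
  exact key n hn1 le_rfl

section

variable {σ : Perm Dt} (hσ : IsRot σ)

include hσ

theorem cycle_closed {S : Set Dt} {x y : Dt} (hx : x ∈ S) (hS : ∀ z ∈ S, σ z ∈ S)
    (hxy : x.org = y.org) : y ∈ S := by
  obtain ⟨n, -, hn, -⟩ := first_hit ((hσ x y).2 hxy)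
  rw [← hn]
  clear hn
  induction n with
  | zero => exact hx
  | succ n ih => rw [pow_succ', Perm.mul_apply]; exact hS _ ih

theorem not_swap {c : Fin 6} {j : Fin 29} {a b : Fin 4} (h1 : σ (h c j a) = h c j b)
    (h2 : σ (h c j b) = h c j a) : False := by
  have key : ∀ e : Fin 4, h c j e ∈ ({h c j a, h c j b} : Set Dt) := by
    intro e
    refine cycle_closed hσ (x := h c j a) (by simp) ?_ rfl
    rintro z (rfl | rfl)
    · rw [h1]; simp
    · rw [h2]; simp
  have key2 : ∀ e : Fin 4, e = a ∨ e = b := by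
    intro e
    have := key e
    simpa using this
  have : ∀ a b : Fin 4, ¬ ∀ e : Fin 4, e = a ∨ e = b := by decide
  exact this a b key2

theorem cyc4 {c : Fin 6} {j : Fin 29} {a b d e : Fin 4} (h1 : σ (h c j a) = h c j b)
    (h2 : σ (h c j b) = h c j d) (hd : a ≠ b ∧ a ≠ d ∧ a ≠ e ∧ b ≠ d ∧ b ≠ e ∧ d ≠ e) :
    σ (h c j d) = h c j e ∧ σ (h c j e) = h c j a := by
  obtain ⟨i, hi, hid⟩ := rot_h hσ c j d
  obtain ⟨k, hk, hke⟩ := rot_h hσ c j e
  have cover : ∀ a b d e i : Fin 4, a ≠ b ∧ a ≠ d ∧ a ≠ e ∧ b ≠ d ∧ b ≠ e ∧ d ≠ e →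
      i = a ∨ i = b ∨ i = d ∨ i = e := by decide
  have hie : i = e := by
    rcases cover a b d e i hd with rfl | rfl | rfl | rfl
    · exfalso
      have : h c j e ∈ ({h c j i, h c j b, h c j d} : Set Dt) := by
        refine cycle_closed hσ (x := h c j i) (by simp) ?_ rfl
        rintro z (rfl | rfl | rfl)
        · rw [h1]; simp
        · rw [h2]; simp
        · rw [hi]; simp
      simp only [Set.mem_insert_iff, Set.mem_singleton_iff, Dt.h.injEq, true_and] at this
      rcases this with h | h | h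
      · exact hd.2.2.1 h.symm
      · exact hd.2.2.2.2.1 h.symm
      · exact hd.2.2.2.2.2 h.symm
    · exfalso
      have := σ.injective (h1.trans hi.symm)
      rw [Dt.h.injEq] at this
      exact hd.2.1 this.2.2
    · exact absurd rfl hid
    · rfl
  subst hie
  refine ⟨hi, ?_⟩
  rcases cover a b d i k hd with rfl | rfl | rfl | rfl
  · exact hk
  · exfalso
    have := σ.injective (h1.trans hk.symm)
    rw [Dt.h.injEq] at this
    exact hd.2.2.1 this.2.2
  · exfalso
    have := σ.injective (h2.trans hk.symm)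
    rw [Dt.h.injEq] at this
    exact hd.2.2.2.2.1 this.2.2
  · exact absurd rfl hke

end

/-- The label of the neighbouring column on the right side, seen from the side `s`. -/
def nb (s : Bool) (c : Fin 6) : Fin 6 := if s then c - 1 else c + 1

theorem lab_nb : ∀ s c, lab s (nb s c) = lab s c + 1 := by decide

theorem lab_zero : ∀ s c, lab s c = 0 → c = 0 ∨ c = 3 := by decide

section

variable {σ : Perm Dt} (hσ : IsRot σ) {r : Fin 28} (hf : ∀ c, Facial σ c r false)
  {g : Dt → ℚ} (hg : ∀ u, g (σ u) = g (rv u))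
  (hK : ∀ c j, j ≠ r.castSucc → j ≠ r.succ → g (h c j 0) = g (rv (h c j 0)))

include hσ hg hK

theorem free_row {c : Fin 6} {j : Fin 29} (h1 : j ≠ r.castSucc) (h2 : j ≠ r.succ) :
    g (σ (h c j 0)) = g (h c j 0) ∧ g (σ (h c j 2)) = g (h c j 2) := by
  constructor
  · rw [hg, hK c j h1 h2]
  · rw [hg]
    have h3 : rv (h c j 2) = h (c - 1) j 0 := rfl
    have h4 : rv (h (c - 1) j 0) = h c j 2 := by rw [← h3, rv_rv]
    rw [h3, hK (c - 1) j h1 h2, h4]

theorem updown {c : Fin 6} {j : Fin 29} (h1 : j ≠ r.castSucc) (h2 : j ≠ r.succ) :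
    g (h c j 1) = g (rv (h c j 3)) ∧ g (h c j 3) = g (rv (h c j 1)) := by
  obtain ⟨f0, f2⟩ := free_row hσ hg hK (c := c) h1 h2
  have hfree : ∀ z, z.org = (h c j 0).org → z ≠ h c j 1 → z ≠ h c j 3 → g (σ z) = g z := by
    intro z hz h1 h3
    obtain ⟨i, rfl⟩ : ∃ i, z = h c j i := by
      rcases z with ⟨c', j', i'⟩ | ⟨s', c'⟩ | ⟨s', c'⟩ | ⟨s', c'⟩
      · simp only [org] at hz
        have hj : j' = j := Fin.ext (by omega)
        have hc : c' = c := Fin.ext (by omega)
        subst hj hc
        exact ⟨i', rfl⟩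
      · simp only [org] at hz; omega
      · simp only [org] at hz; omega
      · simp only [org] at hz; omega
    fin_cases i
    · exact f0
    · exact absurd rfl h1
    · exact f2
    · exact absurd rfl h3
  constructor
  · rw [← hg]
    refine two_kept ((hσ _ _).2 rfl) ?_
    intro z hz hz1 hz2
    exact hfree z ((hσ _ _).1 hz).symm hz2 hz1
  · rw [← hg]
    refine two_kept ((hσ _ _).2 rfl) ?_
    intro z hz hz1 hz2
    exact hfree z ((hσ _ _).1 hz).symm hz1 hz2

theorem low_down (c : Fin 6) : ∀ j : Fin 29, j ≤ r.castSucc → g (h c j 3) = g (h c 0 3) := by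
  intro j
  induction j using Fin.induction with
  | zero => intro _; rfl
  | succ k ih =>
    intro hk
    have hk' : k.castSucc < r.castSucc := by
      rw [Fin.le_def] at hk; rw [Fin.lt_def]; simp at hk ⊢; omega
    have h1 : k.castSucc ≠ r.castSucc := ne_of_lt hk'
    have h2 : k.castSucc ≠ r.succ := by
      intro hh
      have := congrArg Fin.val hh
      rw [Fin.lt_def] at hk'
      simp at this hk'
      omega
    rw [← rv_up, ← (updown hσ hg hK h1 h2).2, ih (le_of_lt hk')]

theorem low_up (c : Fin 6) : ∀ j : Fin 29, j < r.castSucc → g (h c j 1) = g (B false c) := by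
  intro j
  induction j using Fin.induction with
  | zero =>
    intro h0
    have h2 : (0 : Fin 29) ≠ r.succ := (Fin.succ_ne_zero r).symm
    rw [(updown hσ hg hK (ne_of_lt h0) h2).1]
    rfl
  | succ k ih =>
    intro hk
    have hk' : k.castSucc < r.castSucc := lt_trans (Fin.castSucc_lt_succ) hk
    have h2 : k.succ ≠ r.succ := by
      intro hh
      have := congrArg Fin.val hh
      rw [Fin.lt_def] at hk
      simp at this hk
      omega
    rw [(updown hσ hg hK (ne_of_lt hk) h2).1, rv_down, ih hk']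

theorem high_down (c : Fin 6) : ∀ j : Fin 29, r.succ < j → g (h c j 3) = g (B true c) := by
  intro j
  induction j using Fin.reverseInduction with
  | last =>
    intro h0
    have h1 : (Fin.last 28) ≠ r.castSucc := ne_of_gt (lt_trans (Fin.castSucc_lt_succ) h0)
    rw [(updown hσ hg hK h1 (ne_of_gt h0)).2]
    rfl
  | cast k ih =>
    intro hk
    have h1 : k.castSucc ≠ r.castSucc := ne_of_gt (lt_trans (Fin.castSucc_lt_succ) hk)
    rw [(updown hσ hg hK h1 (ne_of_gt hk)).2, rv_up, ih (lt_trans hk (Fin.castSucc_lt_succ))]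

theorem high_up (c : Fin 6) : ∀ j : Fin 29, r.succ ≤ j → g (h c j 1) = g (h c r.succ 1) := by
  intro j
  induction j using Fin.induction with
  | zero =>
    intro h0
    exfalso
    rw [Fin.le_def] at h0
    simp at h0
  | succ k ih =>
    intro hk
    rcases eq_or_lt_of_le hk with hk | hk
    · rw [hk]
    · have h1 : k.succ ≠ r.castSucc := ne_of_gt (lt_trans (Fin.castSucc_lt_succ) hk)
      have h2 : r.succ ≤ k.castSucc := by
        rw [Fin.lt_def] at hk; rw [Fin.le_def]; simp at hk ⊢; omega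
      rw [(updown hσ hg hK h1 (ne_of_gt hk)).1, rv_down, ih h2]

omit hK in
theorem leg_eq (s : Bool) (c : Fin 6) : g (B s c) = g (O s c) ∧ g (A s c) = g (rv (B s c)) := by
  constructor
  · rw [← rot_A hσ s c, hg]; rfl
  · rw [← rot_B hσ s c, hg]

include hf

omit hg hK in
theorem ring_rot (c : Fin 6) :
    (σ (h c r.castSucc 2) = h c r.castSucc 1 ∧ σ (h c r.castSucc 1) = h c r.castSucc 0 ∧
      σ (h c r.castSucc 0) = h c r.castSucc 3 ∧ σ (h c r.castSucc 3) = h c r.castSucc 2) ∧
    (σ (h c r.succ 0) = h c r.succ 3 ∧ σ (h c r.succ 3) = h c r.succ 2 ∧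
      σ (h c r.succ 2) = h c r.succ 1 ∧ σ (h c r.succ 1) = h c r.succ 0) := by
  have f1 : σ (h c r.castSucc 2) = h c r.castSucc 1 := by
    have := hf (c - 1) 0
    simpa [sq, rv, nd] using this
  have f2 : σ (h c r.castSucc 1) = h c r.castSucc 0 := by
    have := hf c 3
    rw [rv_sq] at this
    simpa [sq, nd] using this
  have f3 : σ (h c r.succ 3) = h c r.succ 2 := by
    have := hf (c - 1) 1
    rw [rv_sq] at this
    simpa [sq, nd] using this
  have f4 : σ (h c r.succ 0) = h c r.succ 3 := by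
    have := hf c 2
    rw [rv_sq] at this
    simpa [sq, nd] using this
  obtain ⟨f5, f6⟩ := cyc4 hσ f1 f2 (e := 3) (by decide)
  obtain ⟨f7, f8⟩ := cyc4 hσ f4 f3 (e := 1) (by decide)
  exact ⟨⟨f1, f2, f5, f6⟩, f4, f3, f7, f8⟩

theorem low_row_left (c : Fin 6) : g (h c r.castSucc 2) = g (O false c) := by
  rw [← (ring_rot hσ hf c).1.2.2.2, hg, ← (leg_eq hσ hg false c).1]
  rcases Fin.eq_zero_or_eq_succ r.castSucc with h0 | ⟨k, hk⟩
  · rw [h0]; rfl
  · rw [hk, rv_down]
    exact low_up hσ hg hK c k.castSucc (by rw [hk]; exact Fin.castSucc_lt_succ)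

theorem low_A (c : Fin 6) : g (A false c) = g (O false (c + 1)) := by
  rw [(leg_eq hσ hg false c).2]
  have h1 : rv (B false c) = h c 0 3 := rfl
  rw [h1, ← low_down hσ hg hK c r.castSucc le_rfl, ← (ring_rot hσ hf c).1.2.2.1, hg]
  exact low_row_left hσ hf hg hK (c + 1)

theorem high_row_right (c : Fin 6) : g (h c r.succ 0) = g (O true c) := by
  rw [← (ring_rot hσ hf c).2.2.2.2, hg, ← (leg_eq hσ hg true c).1]
  by_cases h0 : r.succ = Fin.last 28
  · rw [h0]; rfl
  · obtain ⟨k, hk⟩ := Fin.exists_castSucc_eq.2 h0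
    rw [← hk, rv_up]
    exact high_down hσ hg hK c k.succ (by rw [← hk]; exact Fin.castSucc_lt_succ)

theorem high_A (c : Fin 6) : g (A true c) = g (O true (c - 1)) := by
  rw [(leg_eq hσ hg true c).2]
  have h1 : rv (B true c) = h c 28 1 := rfl
  rw [h1, high_up hσ hg hK c 28 (Fin.le_last _), ← (ring_rot hσ hf c).2.2.2.1, hg]
  exact high_row_right hσ hf hg hK (c - 1)

theorem A_eq (s : Bool) (c : Fin 6) : g (A s c) = g (O s (nb s c)) := by
  cases s
  · exact low_A hσ hf hg hK c
  · exact high_A hσ hf hg hK c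

theorem hub_step {i : Fin 3} (hz : ∀ s c, lab s c = i + 1 → g (O s c) = 0) :
    ∀ s c, lab s c = i → g (O s c) = 0 := by
  intro s c hc
  obtain ⟨s', c', h1, h2⟩ := rot_O hσ.inv s c
  rw [Perm.inv_eq_iff_eq] at h1
  rw [h1, hg]
  show g (A s' c') = 0
  rw [A_eq hσ hf hg hK]
  exact hz _ _ (by rw [lab_nb, h2, hc])

theorem hub_zero (h0 : ∀ s, g (O s 0) = 0 ∧ g (O s 3) = 0) (s : Bool) (c : Fin 6) :
    g (O s c) = 0 := by
  have z0 : ∀ s c, lab s c = 0 → g (O s c) = 0 := by
    intro s c hc
    rcases lab_zero s c hc with rfl | rfl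
    · exact (h0 s).1
    · exact (h0 s).2
  have z2 : ∀ s c, lab s c = 2 → g (O s c) = 0 := hub_step hσ hf hg hK (i := 2) z0
  have z1 : ∀ s c, lab s c = 1 → g (O s c) = 0 := hub_step hσ hf hg hK (i := 1) z2
  have : ∀ i : Fin 3, i = 0 ∨ i = 1 ∨ i = 2 := by decide
  rcases this (lab s c) with hc | hc | hc
  · exact z0 s c hc
  · exact z1 s c hc
  · exact z2 s c hc

theorem all_zero (hK2 : ∀ c, c ≠ 0 → g (h c r.castSucc 1) = g (rv (h c r.castSucc 1)))
    (h0 : ∀ s, g (O s 0) = 0 ∧ g (O s 3) = 0) (h1 : g (h 0 r.castSucc 0) = 0) (x : Dt) :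
    g x = 0 := by
  have zO := hub_zero hσ hf hg hK h0
  have zB : ∀ s c, g (B s c) = 0 := fun s c => by rw [(leg_eq hσ hg s c).1, zO]
  have zA : ∀ s c, g (A s c) = 0 := fun s c => by rw [A_eq hσ hf hg hK, zO]
  have e1 : ∀ c, g (h c r.castSucc 1) = g (h (c - 1) r.castSucc 0) := by
    intro c
    rw [← (ring_rot hσ hf c).1.1, hg]
    rfl
  have e2 : ∀ c, g (h c r.castSucc 0) = g (h c r.succ 3) := by
    intro c
    rw [← (ring_rot hσ hf c).1.2.1, hg, rv_up]
  have e3 : ∀ c, c ≠ 0 → g (h c r.castSucc 0) = g (h (c - 1) r.castSucc 0) := by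
    intro c hc
    rw [e2, ← rv_up, ← hK2 c hc, e1]
  have zr : ∀ c, g (h c r.castSucc 0) = 0 := by
    have z1 : g (h 1 r.castSucc 0) = 0 := by rw [e3 1 (by decide)]; exact h1
    have z2 : g (h 2 r.castSucc 0) = 0 := by rw [e3 2 (by decide)]; exact z1
    have z3 : g (h 3 r.castSucc 0) = 0 := by rw [e3 3 (by decide)]; exact z2
    have z4 : g (h 4 r.castSucc 0) = 0 := by rw [e3 4 (by decide)]; exact z3
    have z5 : g (h 5 r.castSucc 0) = 0 := by rw [e3 5 (by decide)]; exact z4
    intro c
    fin_cases c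
    · exact h1
    · exact z1
    · exact z2
    · exact z3
    · exact z4
    · exact z5
  have z3 : ∀ c j, g (h c j 3) = 0 := by
    intro c j
    rcases lt_trichotomy j r.succ with hj | hj | hj
    · have hj' : j ≤ r.castSucc := by
        rw [Fin.lt_def] at hj; rw [Fin.le_def]; simp at hj ⊢; omega
      rw [low_down hσ hg hK c j hj']
      have := (leg_eq hσ hg false c).2
      rw [zA] at this
      exact this.symm
    · rw [hj, ← e2]; exact zr c
    · rw [high_down hσ hg hK c j hj]; exact zB true c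
  have z1 : ∀ c j, g (h c j 1) = 0 := by
    intro c j
    rcases lt_trichotomy j r.castSucc with hj | hj | hj
    · rw [low_up hσ hg hK c j hj]; exact zB false c
    · rw [hj, e1]; exact zr _
    · have hj' : r.succ ≤ j := by
        rw [Fin.lt_def] at hj; rw [Fin.le_def]; simp at hj ⊢; omega
      have h2 := (leg_eq hσ hg true c).2
      rw [zA] at h2
      have h3 : rv (B true c) = h c 28 1 := rfl
      rw [h3, high_up hσ hg hK c 28 (Fin.le_last _)] at h2
      rw [high_up hσ hg hK c j hj', ← h2]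
  have zfree : ∀ c j, j ≠ r.castSucc → j ≠ r.succ → g (h c j 0) = 0 ∧ g (h c j 2) = 0 := by
    intro c j hj1 hj2
    obtain ⟨f0, f2⟩ := free_row hσ hg hK (c := c) hj1 hj2
    obtain ⟨i, hi, hi0⟩ := rot_h hσ c j 0
    obtain ⟨k, hk, hk2⟩ := rot_h hσ c j 2
    have c0 : i = 1 ∨ i = 2 ∨ i = 3 := by revert hi0; clear * -; revert i; decide
    have c2 : k = 0 ∨ k = 1 ∨ k = 3 := by revert hk2; clear * -; revert k; decide
    rw [hi] at f0
    rw [hk] at f2
    rcases c0 with rfl | rfl | rfl <;> rcases c2 with rfl | rfl | rfl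
    · rw [z1] at f0; exact ⟨f0.symm, by rw [← f2, ← f0]⟩
    · rw [z1] at f0 f2; exact ⟨f0.symm, f2.symm⟩
    · rw [z1] at f0; rw [z3] at f2; exact ⟨f0.symm, f2.symm⟩
    · exact (not_swap hσ hi hk).elim
    · rw [z1] at f2; exact ⟨by rw [← f0, ← f2], f2.symm⟩
    · rw [z3] at f2; exact ⟨by rw [← f0, ← f2], f2.symm⟩
    · rw [z3] at f0; exact ⟨f0.symm, by rw [← f2, ← f0]⟩
    · rw [z3] at f0; rw [z1] at f2; exact ⟨f0.symm, f2.symm⟩
    · rw [z3] at f0 f2; exact ⟨f0.symm, f2.symm⟩
  rcases x with ⟨c, j, i⟩ | ⟨s, c⟩ | ⟨s, c⟩ | ⟨s, c⟩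
  · fin_cases i
    · by_cases hj1 : j = r.castSucc
      · rw [hj1]; exact zr c
      · by_cases hj2 : j = r.succ
        · rw [hj2]; show g (h c r.succ 0) = 0; rw [high_row_right hσ hf hg hK, zO]
        · exact (zfree c j hj1 hj2).1
    · exact z1 c j
    · by_cases hj1 : j = r.castSucc
      · rw [hj1]; show g (h c r.castSucc 2) = 0; rw [low_row_left hσ hf hg hK, zO]
      · by_cases hj2 : j = r.succ
        · rw [hj2]
          show g (h c r.succ 2) = 0
          rw [← (ring_rot hσ hf c).2.2.1, hg, rv_down, z1]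
        · exact (zfree c j hj1 hj2).2
    · exact z3 c j
  · exact zO s c
  · exact zA s c
  · exact zB s c

end

/-- The constraints. -/
abbrev Ix (r : Fin 28) : Type :=
  {p : Fin 6 × Fin 29 // p.2 ≠ r.castSucc ∧ p.2 ≠ r.succ} ⊕ ({c : Fin 6 // c ≠ 0} ⊕ Fin 5)

theorem card_Ix (r : Fin 28) : Fintype.card (Ix r) = 172 := by
  revert r
  decide +kernel

/-- The five base darts. -/
def basePt (r : Fin 28) : Fin 5 → Dt :=
  ![h 0 r.castSucc 0, O false 0, O false 3, O true 0, O true 3]

/-- If all squares of a ring are faces, with the same orientation, there are at most 172 faces. -/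
theorem intact_pos {σ : Perm Dt} (hσ : IsRot σ) {r : Fin 28} (hf : ∀ c, Facial σ c r false) :
    numCycles (fc σ) ≤ 172 := by
  set Q := Quotient (Perm.SameCycle.setoid (fc σ)) with hQ
  have : Fintype Q := Fintype.ofFinite Q
  let pr : Dt → Q := fun x => Quotient.mk _ x
  have hpr : ∀ x, pr (fc σ x) = pr x := fun x =>
    Quotient.sound (Perm.SameCycle.symm ⟨1, by simp⟩)
  let Φ : (Q → ℚ) →ₗ[ℚ] (Ix r → ℚ) :=
    { toFun := fun g i => match i with
        | Sum.inl p => g (pr (h p.1.1 p.1.2 0)) - g (pr (rv (h p.1.1 p.1.2 0)))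
        | Sum.inr (Sum.inl c) => g (pr (h c.1 r.castSucc 1)) - g (pr (rv (h c.1 r.castSucc 1)))
        | Sum.inr (Sum.inr k) => g (pr (basePt r k))
      map_add' := by
        intro g g'
        funext i
        rcases i with p | c | k
        · simp only [Pi.add_apply]; ring
        · simp only [Pi.add_apply]; ring
        · simp only [Pi.add_apply]
      map_smul' := by
        intro a g
        funext i
        rcases i with p | c | k
        · simp only [Pi.smul_apply, smul_eq_mul, RingHom.id_apply]; ring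
        · simp only [Pi.smul_apply, smul_eq_mul, RingHom.id_apply]; ring
        · simp only [Pi.smul_apply, smul_eq_mul, RingHom.id_apply] }
  have hinj : Function.Injective Φ := by
    rw [injective_iff_map_eq_zero]
    intro g hg0
    have hK1 : ∀ c j, j ≠ r.castSucc → j ≠ r.succ →
        g (pr (h c j 0)) = g (pr (rv (h c j 0))) := by
      intro c j h1 h2
      have := congrFun hg0 (Sum.inl ⟨(c, j), h1, h2⟩)
      exact sub_eq_zero.1 this
    have hK2 : ∀ c, c ≠ 0 → g (pr (h c r.castSucc 1)) = g (pr (rv (h c r.castSucc 1))) := by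
      intro c hc
      have := congrFun hg0 (Sum.inr (Sum.inl ⟨c, hc⟩))
      exact sub_eq_zero.1 this
    have hB : ∀ k, g (pr (basePt r k)) = 0 := fun k => congrFun hg0 (Sum.inr (Sum.inr k))
    have hall := all_zero (g := fun x => g (pr x)) hσ hf (fun u => by
        show g (pr (σ u)) = g (pr (rv u))
        have h1 := hpr (rv u)
        rw [fc_apply, rv_rv] at h1
        rw [h1]) hK1 hK2
        (by
          intro s
          cases s
          · exact ⟨hB 1, hB 2⟩
          · exact ⟨hB 3, hB 4⟩)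
        (hB 0)
    funext q
    obtain ⟨x, rfl⟩ := Quotient.exists_rep q
    exact hall x
  have h1 := LinearMap.finrank_le_finrank_of_injective hinj
  rw [Module.finrank_fintype_fun_eq_card, Module.finrank_fintype_fun_eq_card, card_Ix] at h1
  unfold numCycles
  rw [Nat.card_eq_fintype_card]
  exact h1

/-- Every rotation system of the graph has at most 172 faces. -/
theorem faces_le {σ : Perm Dt} (hσ : IsRot σ) : numCycles (fc σ) ≤ 172 := by
  by_cases hni : ∀ r : Fin 28, ∃ c, ∀ s, ¬ Facial σ c r s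
  · exact count_le hσ hni
  · push Not at hni
    obtain ⟨r, hr⟩ := hni
    have hstep : ∀ c, Facial σ c r false → Facial σ (c + 1) r false := by
      intro c hc
      obtain ⟨s, hs⟩ := hr (c + 1)
      cases s
      · exact hs
      · exfalso
        have a1 : σ (h (c + 1) r.castSucc 2) = h (c + 1) r.castSucc 1 := by
          have := hc 0
          simpa [sq, rv, nd] using this
        have a2 : σ (h (c + 1) r.castSucc 0) = h (c + 1) r.castSucc 1 := by
          have := hs 2
          rw [rv_sq] at this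
          simpa [sq, nd] using this
        have := σ.injective (a1.trans a2.symm)
        simp at this
    have hstep' : ∀ c, Facial σ c r true → Facial σ (c + 1) r true := by
      intro c hc
      obtain ⟨s, hs⟩ := hr (c + 1)
      cases s
      · exfalso
        have a1 : σ (h (c + 1) r.castSucc 1) = h (c + 1) r.castSucc 2 := by
          have := hc 3
          rw [rv_sq] at this
          simpa [sq, nd] using this
        have a2 : σ (h (c + 1) r.castSucc 1) = h (c + 1) r.castSucc 0 := by
          have := hs 3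
          rw [rv_sq] at this
          simpa [sq, nd] using this
        have := a1.symm.trans a2
        simp at this
      · exact hs
    have hall : ∀ s, Facial σ 0 r s → (∀ c, Facial σ c r s → Facial σ (c + 1) r s) →
        ∀ c, Facial σ c r s := by
      intro s h0 hst c
      have z1 : Facial σ 1 r s := hst 0 h0
      have z2 : Facial σ 2 r s := hst 1 z1
      have z3 : Facial σ 3 r s := hst 2 z2
      have z4 : Facial σ 4 r s := hst 3 z3
      have z5 : Facial σ 5 r s := hst 4 z4
      fin_cases c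
      · exact h0
      · exact z1
      · exact z2
      · exact z3
      · exact z4
      · exact z5
    obtain ⟨s, hs⟩ := hr 0
    cases s
    · exact intact_pos hσ (hall false hs hstep)
    · have h1 := hall true hs hstep'
      have h2 := intact_pos hσ.inv (r := r) (fun c => facial_inv (h1 c))
      have h3 : numCycles (fc σ⁻¹) = numCycles (fc σ) :=
        numCycles_inv_mul σ rvP (fun d => rv_rv d)
      rw [h3] at h2
      exact h2

end ErEven
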