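import Pool.Agent.Work.MP_a2800b_co.Graph

/-!
# Faces of a rotation system of the graph: the case without an intact ring
-/

namespace ErEven

open Equiv Dt

/-- `σ` is a rotation system: its cycles are the sets of darts at the vertices. -/
def IsRot (σ : Perm Dt) : Prop := ∀ x y, σ.SameCycle x y ↔ x.org = y.org

theorem IsRot.inv {σ : Perm Dt} (h : IsRot σ) : IsRot σ⁻¹ := by
  intro x y
  rw [Perm.sameCycle_inv]
  exact h x y

section

variable {σ : Perm Dt} (hσ : IsRot σ)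

include hσ

theorem org_rot (x : Dt) : (σ x).org = x.org :=
  ((hσ _ _).1 ⟨1, by simp⟩).symm

theorem no_fix {x y : Dt} (h : x.org = y.org) (hne : x ≠ y) : σ x ≠ x := by
  intro hx
  obtain ⟨n, hn⟩ := (hσ x y).2 h
  rw [Perm.zpow_apply_eq_self_of_apply_eq_self hx] at hn
  exact hne hn

theorem rot_h (c : Fin 6) (j : Fin 29) (i : Fin 4) : ∃ i', σ (h c j i) = h c j i' ∧ i' ≠ i := by
  have h1 := org_rot hσ (h c j i)
  have h2 : σ (h c j i) ≠ h c j i := no_fix hσ (y := h c j (i + 1)) rfl (by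
    intro hh
    rw [Dt.h.injEq] at hh
    have := hh.2.2
    fin_cases i <;> simp at this)
  rcases hx : σ (h c j i) with ⟨c', j', i'⟩ | ⟨s', c'⟩ | ⟨s', c'⟩ | ⟨s', c'⟩ <;> rw [hx] at h1 h2
  · simp only [org] at h1
    have hj : j = j' := Fin.ext (by omega)
    have hc : c = c' := Fin.ext (by omega)
    subst hj hc
    exact ⟨i', rfl, fun hh => h2 (by rw [hh])⟩
  · simp only [org] at h1; omega
  · simp only [org] at h1; omega
  · simp only [org] at h1; omega

theorem rot_A (s : Bool) (c : Fin 6) : σ (A s c) = B s c := by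
  have h1 := org_rot hσ (A s c)
  have h2 : σ (A s c) ≠ A s c := no_fix hσ (y := B s c) rfl (by simp)
  have h3 := (lab s c).2
  rcases hx : σ (A s c) with ⟨c', j', i'⟩ | ⟨s', c'⟩ | ⟨s', c'⟩ | ⟨s', c'⟩ <;> rw [hx] at h1 h2
  · simp only [org] at h1; omega
  · have := (lab s' c').2
    simp only [org] at h1; omega
  · simp only [org] at h1
    obtain ⟨rfl, rfl⟩ := leg_inj h1
    exact absurd rfl h2
  · simp only [org] at h1
    obtain ⟨rfl, rfl⟩ := leg_inj h1
    rfl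

theorem rot_B (s : Bool) (c : Fin 6) : σ (B s c) = A s c := by
  have h1 := org_rot hσ (B s c)
  have h2 : σ (B s c) ≠ B s c := no_fix hσ (y := A s c) rfl (by simp)
  have h3 := (lab s c).2
  rcases hx : σ (B s c) with ⟨c', j', i'⟩ | ⟨s', c'⟩ | ⟨s', c'⟩ | ⟨s', c'⟩ <;> rw [hx] at h1 h2
  · simp only [org] at h1; omega
  · have := (lab s' c').2
    simp only [org] at h1; omega
  · simp only [org] at h1
    obtain ⟨rfl, rfl⟩ := leg_inj h1
    rfl
  · simp only [org] at h1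
    obtain ⟨rfl, rfl⟩ := leg_inj h1
    exact absurd rfl h2

theorem rot_O (s : Bool) (c : Fin 6) : ∃ s' c', σ (O s c) = O s' c' ∧ lab s' c' = lab s c := by
  have h1 := org_rot hσ (O s c)
  have h3 := (lab s c).2
  rcases hx : σ (O s c) with ⟨c', j', i'⟩ | ⟨s', c'⟩ | ⟨s', c'⟩ | ⟨s', c'⟩ <;> rw [hx] at h1
  · simp only [org] at h1; omega
  · simp only [org] at h1
    exact ⟨s', c', rfl, Fin.ext (by omega)⟩
  · simp only [org] at h1; omega
  · simp only [org] at h1; omega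

end

/-- Grid darts: those of edges of the grid. -/
def isGrid : Dt → Bool
  | h _ j i => !((j == 0 && i == 3) || (j == 28 && i == 1))
  | _ => false

/-- Column step of a direction. -/
def dx : Fin 4 → Fin 6 := ![1, 0, 5, 0]

/-- Row step of a direction. -/
def dy : Fin 4 → ℤ := ![0, 1, 0, -1]

theorem rv_grid (c : Fin 6) (j : Fin 29) (i : Fin 4) (hg : isGrid (h c j i) = true) :
    ∃ j' : Fin 29, rv (h c j i) = h (c + dx i) j' (i + 2) ∧ (j' : ℤ) = j + dy i := by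
  fin_cases i
  · exact ⟨j, by simp [rv, dx], by simp [dy]⟩
  · have h1 : j.val + 1 < 29 := by
      simp [isGrid] at hg
      have : j ≠ 28 := hg
      have : j.val ≠ 28 := fun hh => this (Fin.ext hh)
      omega
    refine ⟨⟨j.val + 1, h1⟩, ?_, ?_⟩
    · simp [rv, dx, h1]
    · simp [dy]
  · refine ⟨j, ?_, by simp [dy]⟩
    simp only [rv, dx, Fin.reduceFinMk]
    congr 1
    clear hg
    revert c
    decide
  · have h1 : 0 < j.val := by
      simp [isGrid] at hg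
      have : j ≠ 0 := hg
      have : j.val ≠ 0 := fun hh => this (Fin.ext hh)
      omega
    refine ⟨⟨j.val - 1, by omega⟩, ?_, ?_⟩
    · simp [rv, dx, h1]
    · simp [dy]
      omega

/-- The darts of the square of column `c` and ring `r`, traversed in one of the two directions;
`i` is the direction of the dart. -/
def sq (c : Fin 6) (r : Fin 28) : Bool → Fin 4 → Dt
  | false, 0 => h c r.castSucc 0
  | false, 1 => h (c + 1) r.castSucc 1
  | false, 2 => h (c + 1) r.succ 2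
  | false, 3 => h c r.succ 3
  | true, 0 => h c r.succ 0
  | true, 3 => h (c + 1) r.succ 3
  | true, 2 => h (c + 1) r.castSucc 2
  | true, 1 => h c r.castSucc 1

/-- The next direction. -/
def nd (s : Bool) (i : Fin 4) : Fin 4 := if s then i + 3 else i + 1

/-- The square is a face, traversed in the direction `s`. -/
def Facial (σ : Perm Dt) (c : Fin 6) (r : Fin 28) (s : Bool) : Prop :=
  ∀ i : Fin 4, σ (rv (sq c r s i)) = sq c r s (nd s i)

theorem rv_sq (c : Fin 6) (r : Fin 28) (s : Bool) (i : Fin 4) :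
    rv (sq c r s i) = sq c r (!s) (i + 2) := by
  cases s <;> fin_cases i
  · simp [sq, rv]
  · simp [sq, rv_up]
  · simp [sq, rv]
  · simp [sq, rv_down]
  · simp [sq, rv]
  · simp [sq, rv_up]
  · simp [sq, rv]
  · simp [sq, rv_down]

theorem nd_add_two : ∀ (s : Bool) (i : Fin 4), nd s i + 2 = nd (!s) i := by decide

theorem nd_nd : ∀ (s : Bool) (i : Fin 4), nd s (nd s i) = i + 2 := by decide

theorem facial_inv {σ : Perm Dt} {c : Fin 6} {r : Fin 28} {s : Bool} (hf : Facial σ c r s) :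
    Facial σ⁻¹ c r (!s) := by
  intro i
  rw [Perm.inv_eq_iff_eq, rv_sq, Bool.not_not]
  have h1 := hf (nd s i)
  rw [rv_sq] at h1
  rw [nd_add_two, nd_nd] at h1
  exact h1.symm

/-- No square is a face for both directions. -/
theorem facial_excl {σ : Perm Dt} (hσ : IsRot σ) {c : Fin 6} {r : Fin 28}
    (h1 : Facial σ c r false) (h2 : Facial σ c r true) : False := by
  have a1 : σ (h (c + 1) r.castSucc 2) = h (c + 1) r.castSucc 1 := by
    have := h1 0
    simpa [sq, rv, nd] using this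
  have a2 : σ (h (c + 1) r.castSucc 1) = h (c + 1) r.castSucc 2 := by
    have := h2 3
    rw [rv_sq] at this
    simpa [sq, nd] using this
  obtain ⟨n, -, hn, -⟩ := first_hit ((hσ (h (c + 1) r.castSucc 2) (h (c + 1) r.castSucc 0)).2 rfl)
  have key : ∀ n : ℕ, (σ ^ n) (h (c + 1) r.castSucc 2) = h (c + 1) r.castSucc 2 ∨
      (σ ^ n) (h (c + 1) r.castSucc 2) = h (c + 1) r.castSucc 1 := by
    intro n
    induction n with
    | zero => left; rfl
    | succ n ih =>
      rw [pow_succ', Perm.mul_apply]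
      rcases ih with hh | hh <;> rw [hh]
      · right; exact a1
      · left; exact a2
  rcases key n with hh | hh <;> rw [hh] at hn <;> simp at hn

/-- Column of a grid dart. -/
def col : Dt → Fin 6
  | h c _ _ => c
  | _ => 0

/-- Row of a grid dart. -/
def row : Dt → ℤ
  | h _ j _ => (j.val : ℤ)
  | _ => 0

/-- Direction of a grid dart. -/
def dir : Dt → Fin 4
  | h _ _ i => i
  | _ => 0

/-- The face permutation. -/
def fc (σ : Perm Dt) : Perm Dt := σ * rvP

theorem fc_apply (σ : Perm Dt) (x : Dt) : fc σ x = σ (rv x) := rfl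

theorem grid_step {σ : Perm Dt} (hσ : IsRot σ) {x : Dt} (hx : isGrid x = true)
    (hy : isGrid (fc σ x) = true) :
    col (fc σ x) = col x + dx (dir x) ∧ row (fc σ x) = row x + dy (dir x) ∧
      dir (fc σ x) ≠ dir x + 2 := by
  rcases x with ⟨c, j, i⟩ | ⟨s, c⟩ | ⟨s, c⟩ | ⟨s, c⟩
  · obtain ⟨j1, h1, h2⟩ := rv_grid c j i hx
    obtain ⟨i2, h3, h4⟩ := rot_h hσ (c + dx i) j1 (i + 2)
    rw [fc_apply, h1, h3]
    exact ⟨rfl, h2, h4⟩
  · simp [isGrid] at hx
  · simp [isGrid] at hx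
  · simp [isGrid] at hx

theorem walk1 : ∀ i0 : Fin 4, ¬ (dx i0 = 0 ∧ dy i0 = 0) := by decide

theorem walk2 : ∀ i0 i1 : Fin 4, i1 ≠ i0 + 2 → ¬ (dx i0 + dx i1 = 0 ∧ dy i0 + dy i1 = 0) := by
  decide

theorem walk3 : ∀ i0 i1 i2 : Fin 4, ¬ (dx i0 + dx i1 + dx i2 = 0 ∧ dy i0 + dy i1 + dy i2 = 0) := by
  decide +kernel

theorem walk4 : ∀ i0 i1 i2 i3 : Fin 4, i1 ≠ i0 + 2 → i2 ≠ i1 + 2 → i3 ≠ i2 + 2 → i0 ≠ i3 + 2 →
    (dx i0 + dx i1 + dx i2 + dx i3 = 0 ∧ dy i0 + dy i1 + dy i2 + dy i3 = 0) →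
    ∃ s, i1 = nd s i0 ∧ i2 = nd s i1 ∧ i3 = nd s i2 ∧ i0 = nd s i3 := by
  decide +kernel

theorem walk5 : ∀ i0 i1 i2 i3 i4 : Fin 4, ¬ (dx i0 + dx i1 + dx i2 + dx i3 + dx i4 = 0 ∧
    dy i0 + dy i1 + dy i2 + dy i3 + dy i4 = 0) := by
  decide +kernel

theorem isGrid_sq (c : Fin 6) (r : Fin 28) (s : Bool) (i : Fin 4) : isGrid (sq c r s i) = true := by
  revert c r s i
  decide +kernel

theorem h_eq_of {x : Dt} (hx : isGrid x = true) {c : Fin 6} {j : Fin 29} {i : Fin 4}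
    (h1 : col x = c) (h2 : row x = j) (h3 : dir x = i) : x = h c j i := by
  rcases x with ⟨c', j', i'⟩ | ⟨s, c'⟩ | ⟨s, c'⟩ | ⟨s, c'⟩
  · simp only [col, row, dir] at h1 h2 h3
    subst h1 h3
    congr
    exact Fin.ext (by exact_mod_cast h2)
  · simp [isGrid] at hx
  · simp [isGrid] at hx
  · simp [isGrid] at hx

theorem exists_row {z : Dt} (hz : isGrid z = true) : ∃ j' : Fin 29, row z = j' := by
  rcases z with ⟨c', j', i'⟩ | ⟨s', c'⟩ | ⟨s', c'⟩ | ⟨s', c'⟩
  · exact ⟨j', rfl⟩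
  · simp [isGrid] at hz
  · simp [isGrid] at hz
  · simp [isGrid] at hz

/-- A closed walk of length 4 of the face permutation that starts to the right is a square. -/
theorem square_of_walk {σ : Perm Dt} (hσ : IsRot σ) {y : Dt}
    (hg : ∀ n : ℕ, isGrid ((fc σ ^ n) y) = true)
    (h4 : (fc σ ^ 4) y = y) (h0 : dir y = 0) {s : Bool} (h1 : dir (fc σ y) = nd s 0)
    (h2 : dir (fc σ (fc σ y)) = nd s (nd s 0))
    (h3 : dir (fc σ (fc σ (fc σ y))) = nd s (nd s (nd s 0))) :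
    ∃ c r, Facial σ c r s ∧ y = sq c r s 0 ∧ fc σ y = sq c r s (nd s 0) ∧
      fc σ (fc σ y) = sq c r s (nd s (nd s 0)) ∧
      fc σ (fc σ (fc σ y)) = sq c r s (nd s (nd s (nd s 0))) := by
  have g0 : isGrid y = true := hg 0
  have g1 : isGrid (fc σ y) = true := hg 1
  have g2 : isGrid (fc σ (fc σ y)) = true := hg 2
  have g3 : isGrid (fc σ (fc σ (fc σ y))) = true := hg 3
  have h4' : fc σ (fc σ (fc σ (fc σ y))) = y := h4
  obtain ⟨c1, r1, -⟩ := grid_step hσ g0 g1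
  obtain ⟨c2, r2, -⟩ := grid_step hσ g1 g2
  obtain ⟨c3, r3, -⟩ := grid_step hσ g2 g3
  obtain ⟨j, hj⟩ := exists_row g0
  obtain ⟨j2, hj2⟩ := exists_row g2
  obtain ⟨c, hc⟩ : ∃ c, col y = c := ⟨_, rfl⟩
  have hy : y = h c j 0 := h_eq_of g0 hc hj h0
  rw [hc, h0, show dx 0 = 1 from rfl] at c1
  rw [hj, h0, show dy 0 = 0 from rfl] at r1
  cases s
  · have e1 : nd false 0 = 1 := rfl
    have e2 : nd false 1 = 2 := rfl
    have e3 : nd false 2 = 3 := rfl
    rw [e1] at h1; rw [e1, e2] at h2; rw [e1, e2, e3] at h3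
    rw [h1, show dx 1 = 0 from rfl] at c2
    rw [h1, show dy 1 = 1 from rfl] at r2
    rw [h2, show dx 2 = 5 from rfl] at c3
    rw [h2, show dy 2 = 0 from rfl] at r3
    have hj : j.val < 28 := by omega
    have y1 : fc σ y = sq c ⟨j.val, hj⟩ false 1 :=
      h_eq_of g1 c1 (by rw [r1]; simp) h1
    have y2 : fc σ (fc σ y) = sq c ⟨j.val, hj⟩ false 2 :=
      h_eq_of g2 (by rw [c2, c1, add_zero]) (by rw [r2, r1]; simp) h2
    have y3 : fc σ (fc σ (fc σ y)) = sq c ⟨j.val, hj⟩ false 3 :=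
      h_eq_of g3 (by rw [c3, c2, c1]; clear hc hy c1 y1 y2; revert c; decide)
        (by rw [r3, r2, r1]; simp) h3
    have y0 : y = sq c ⟨j.val, hj⟩ false 0 := hy
    refine ⟨c, ⟨j.val, hj⟩, ?_, y0, y1, y2, y3⟩
    intro i
    rw [← fc_apply]
    fin_cases i
    · show fc σ (sq c ⟨j.val, hj⟩ false 0) = sq c ⟨j.val, hj⟩ false 1
      rw [← y0, y1]
    · show fc σ (sq c ⟨j.val, hj⟩ false 1) = sq c ⟨j.val, hj⟩ false 2
      rw [← y1, y2]
    · show fc σ (sq c ⟨j.val, hj⟩ false 2) = sq c ⟨j.val, hj⟩ false 3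
      rw [← y2, y3]
    · show fc σ (sq c ⟨j.val, hj⟩ false 3) = sq c ⟨j.val, hj⟩ false 0
      rw [← y3, h4', y0]
  · have e1 : nd true 0 = 3 := rfl
    have e2 : nd true 3 = 2 := rfl
    have e3 : nd true 2 = 1 := rfl
    rw [e1] at h1; rw [e1, e2] at h2; rw [e1, e2, e3] at h3
    rw [h1, show dx 3 = 0 from rfl] at c2
    rw [h1, show dy 3 = -1 from rfl] at r2
    rw [h2, show dx 2 = 5 from rfl] at c3
    rw [h2, show dy 2 = 0 from rfl] at r3
    have hj0 : 0 < j.val := by omega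
    have hj : j.val - 1 < 28 := by omega
    have ej : j = (⟨j.val - 1, hj⟩ : Fin 28).succ := Fin.ext (by simp; omega)
    have y1 : fc σ y = sq c ⟨j.val - 1, hj⟩ true 3 :=
      h_eq_of g1 c1 (by rw [r1]; simp; omega) h1
    have y2 : fc σ (fc σ y) = sq c ⟨j.val - 1, hj⟩ true 2 :=
      h_eq_of g2 (by rw [c2, c1, add_zero]) (by rw [r2, r1]; simp; omega) h2
    have y3 : fc σ (fc σ (fc σ y)) = sq c ⟨j.val - 1, hj⟩ true 1 :=
      h_eq_of g3 (by rw [c3, c2, c1]; clear hc hy c1 y1 y2; revert c; decide)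
        (by rw [r3, r2, r1]; simp; omega) h3
    have y0 : y = sq c ⟨j.val - 1, hj⟩ true 0 := by
      rw [hy]
      show h c j 0 = h c (⟨j.val - 1, hj⟩ : Fin 28).succ 0
      rw [← ej]
    refine ⟨c, ⟨j.val - 1, hj⟩, ?_, y0, y1, y2, y3⟩
    intro i
    rw [← fc_apply]
    fin_cases i
    · show fc σ (sq c ⟨j.val - 1, hj⟩ true 0) = sq c ⟨j.val - 1, hj⟩ true 3
      rw [← y0, y1]
    · show fc σ (sq c ⟨j.val - 1, hj⟩ true 1) = sq c ⟨j.val - 1, hj⟩ true 0
      rw [← y3, h4', y0]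
    · show fc σ (sq c ⟨j.val - 1, hj⟩ true 2) = sq c ⟨j.val - 1, hj⟩ true 1
      rw [← y2, y3]
    · show fc σ (sq c ⟨j.val - 1, hj⟩ true 3) = sq c ⟨j.val - 1, hj⟩ true 2
      rw [← y1, y2]

end ErEven
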