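import Pool.Agent.Work.MP_a2800b_co.Defs

/-!
# Cycles of permutations
-/

namespace ErEven

open Equiv

variable {D D' ι : Type}

theorem semiconj_zpow {τ : Perm D} {τ' : Perm D'} {h : D → D'}
    (hh : ∀ x, h (τ x) = τ' (h x)) (n : ℤ) (x : D) : h ((τ ^ n) x) = (τ' ^ n) (h x) := by
  have hinv : ∀ x, h (τ⁻¹ x) = τ'⁻¹ (h x) := by
    intro x
    rw [Perm.eq_inv_iff_eq, ← hh]; simp
  induction n using Int.induction_on generalizing x with
  | zero => simp
  | succ n ih => rw [zpow_add_one, zpow_add_one, Perm.mul_apply, Perm.mul_apply, ih, hh]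
  | pred n ih => rw [zpow_sub_one, zpow_sub_one, Perm.mul_apply, Perm.mul_apply, ih, hinv]

theorem sameCycle_of_semiconj {τ : Perm D} {τ' : Perm D'} {h : D → D'}
    (hh : ∀ x, h (τ x) = τ' (h x)) {x y : D} (hxy : τ.SameCycle x y) :
    τ'.SameCycle (h x) (h y) := by
  obtain ⟨n, rfl⟩ := hxy
  exact ⟨n, (semiconj_zpow hh n x).symm⟩

theorem sameCycle_iff_of_semiconj {τ : Perm D} {τ' : Perm D'} (h : D ≃ D')
    (hh : ∀ x, h (τ x) = τ' (h x)) {x y : D} :
    τ.SameCycle x y ↔ τ'.SameCycle (h x) (h y) := by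
  refine ⟨sameCycle_of_semiconj hh, fun hxy => ?_⟩
  have hh' : ∀ x, h.symm (τ' x) = τ (h.symm x) := by
    intro x
    rw [Equiv.symm_apply_eq, hh, Equiv.apply_symm_apply]
  have := sameCycle_of_semiconj hh' hxy
  simpa using this

/-- Count the cycles by a labelling of the points by the cycles. -/
theorem numCycles_eq_card {τ : Perm D} (f : D → ι) (hf : Function.Surjective f)
    (h : ∀ x y, f x = f y ↔ τ.SameCycle x y) : numCycles τ = Nat.card ι := by
  unfold numCycles
  refine Nat.card_congr (Equiv.ofBijective (Quotient.lift f fun x y hxy => (h x y).2 hxy) ⟨?_, ?_⟩)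
  · rintro ⟨x⟩ ⟨y⟩ hxy
    exact Quotient.sound ((h x y).1 hxy)
  · intro i
    obtain ⟨x, rfl⟩ := hf i
    exact ⟨Quotient.mk _ x, rfl⟩

theorem numCycles_semiconj {τ : Perm D} {τ' : Perm D'} (h : D ≃ D')
    (hh : ∀ x, h (τ x) = τ' (h x)) : numCycles τ = numCycles τ' := by
  refine numCycles_eq_card (fun x => (Quotient.mk (Perm.SameCycle.setoid τ') (h x))) ?_ ?_
  · rintro ⟨y⟩
    exact ⟨h.symm y, by simp only [Equiv.apply_symm_apply]; rfl⟩
  · intro x y
    rw [sameCycle_iff_of_semiconj h hh]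
    exact ⟨fun hxy => Quotient.exact hxy, fun hxy => Quotient.sound hxy⟩

theorem numCycles_inv (τ : Perm D) : numCycles τ⁻¹ = numCycles τ := by
  refine numCycles_eq_card (fun x => (Quotient.mk (Perm.SameCycle.setoid τ) x)) ?_ ?_
  · rintro ⟨y⟩
    exact ⟨y, rfl⟩
  · intro x y
    rw [Perm.sameCycle_inv]
    exact ⟨fun hxy => Quotient.exact hxy, fun hxy => Quotient.sound hxy⟩

theorem numCycles_inv_mul (σ ρ : Perm D) (hρ : ∀ d, ρ (ρ d) = d) :
    numCycles (σ⁻¹ * ρ) = numCycles (σ * ρ) := by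
  rw [← numCycles_inv (σ⁻¹ * ρ)]
  refine numCycles_semiconj ρ ?_
  intro x
  have h1 : (σ⁻¹ * ρ)⁻¹ x = ρ (σ x) := by
    rw [Perm.inv_eq_iff_eq, Perm.mul_apply, hρ]; simp
  rw [h1, hρ, Perm.mul_apply, hρ]

/-- A fixed point free involution has half as many cycles as points. -/
theorem two_mul_numCycles [Finite D] (ρ : Perm D) (hρ : ∀ d, ρ (ρ d) = d) (hne : ∀ d, ρ d ≠ d) :
    2 * numCycles ρ = Nat.card D := by
  classical
  have hsame : ∀ x y, ρ.SameCycle x y ↔ (y = x ∨ y = ρ x) := by
    intro x y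
    constructor
    · rintro ⟨n, rfl⟩
      have key : ∀ n : ℤ, (ρ ^ n) x = x ∨ (ρ ^ n) x = ρ x := by
        have hinv : ρ⁻¹ = ρ := by
          ext z
          rw [Perm.inv_eq_iff_eq, hρ]
        intro n
        induction n using Int.induction_on with
        | zero => left; simp
        | succ n ih =>
          rw [zpow_add_one, (Commute.self_zpow ρ (n : ℤ)).symm.eq, Perm.mul_apply]
          rcases ih with h | h <;> rw [h]
          · right; rfl
          · left; exact hρ x
        | pred n ih =>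
          rw [zpow_sub_one, hinv, (Commute.self_zpow ρ (-(n : ℤ))).symm.eq, Perm.mul_apply]
          rcases ih with h | h <;> rw [h]
          · right; rfl
          · left; exact hρ x
      exact key n
    · rintro (rfl | rfl)
      · exact Perm.SameCycle.refl _ _
      · exact ⟨1, by simp⟩
  have := Fintype.ofFinite D
  unfold numCycles
  set Q := Quotient (Perm.SameCycle.setoid ρ) with hQ
  have : Fintype Q := Fintype.ofFinite Q
  rw [Nat.card_eq_fintype_card, Nat.card_eq_fintype_card]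
  have h1 : Fintype.card D = ∑ q : Q, (Finset.univ.filter fun d : D => (Quotient.mk _ d : Q) = q).card := by
    rw [← Finset.card_univ]
    exact Finset.card_eq_sum_card_fiberwise (fun d _ => Finset.mem_univ _)
  rw [h1, Finset.sum_const_nat (m := 2), Finset.card_univ, mul_comm]
  rintro ⟨x⟩ -
  have : (Finset.univ.filter fun d : D => (Quotient.mk _ d : Q) = Quot.mk _ x) = {x, ρ x} := by
    ext d
    simp only [Finset.mem_filter, Finset.mem_univ, true_and, Finset.mem_insert,
      Finset.mem_singleton]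
    rw [← hsame]
    constructor
    · intro h
      exact (Quotient.exact h : ρ.SameCycle d x).symm
    · intro h
      exact Quotient.sound (Perm.SameCycle.symm h)
  rw [this, Finset.card_pair (hne x).symm]

/-- First return: the first time the orbit of `u` hits `w`. -/
theorem first_hit [Finite D] {τ : Perm D} {u w : D} (h : τ.SameCycle u w) :
    ∃ n : ℕ, 1 ≤ n ∧ (τ ^ n) u = w ∧ ∀ m, 1 ≤ m → m < n → (τ ^ m) u ≠ w ∧ (τ ^ m) u ≠ u := by
  classical
  have hex : ∃ n : ℕ, 1 ≤ n ∧ (τ ^ n) u = w := by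
    obtain ⟨n, hn, -, h⟩ := h.exists_pow_eq''
    · exact ⟨n, hn, h⟩
  refine ⟨Nat.find hex, (Nat.find_spec hex).1, (Nat.find_spec hex).2, ?_⟩
  intro m hm hlt
  refine ⟨fun hw => Nat.find_min hex hlt ⟨hm, hw⟩, fun hu => ?_⟩
  have hlt' : Nat.find hex - m < Nat.find hex := by omega
  refine Nat.find_min hex hlt' ⟨by omega, ?_⟩
  have h2 := (Nat.find_spec hex).2
  have h3 : Nat.find hex = (Nat.find hex - m) + m := by omega
  rw [h3, pow_add, Perm.mul_apply, hu] at h2
  exact h2

end ErEven
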